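import Pool.Agent.H25U.Tow
import Pool.Agent.H25P.Root

/-!
# The root number over the non-cyclic extensions in the class; the given extension
-/

set_option autoImplicit false
set_option linter.all false

open IsDedekindDomain NumberField Polynomial
open scoped Classical IntermediateField Pointwise

namespace Pool.Agent.H25U

open Pool.Agent.N922.PQ (Gen SplitMod)
open Pool.Agent.N783.PF (fF rd)
open Pool.Agent.H25P (fM Fixed Signs smul_coe)

section fix

variable {K M : Type} [Field K] [NumberField K] [Field M] [NumberField M] [Algebra K M]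

/-- The Galois group is cyclic if there is a stable unramified prime. -/
theorem cyclic_of_unr {v : HeightOneSpectrum (𝓞 M)} (hfix : Fixed K v) (hur : Unr K v) :
    IsCyclic (M ≃ₐ[K] M) := by
  have hmem : ∀ (σ : M ≃ₐ[K] M) (x : 𝓞 M), σ • x ∈ v.asIdeal ↔ x ∈ v.asIdeal := by
    intro σ x
    rw [← HeightOneSpectrum.valuation_lt_one_iff_mem (K := M),
      ← HeightOneSpectrum.valuation_lt_one_iff_mem (K := M)]
    show v.valuation M (σ (x : M)) < 1 ↔ _
    rw [hfix]
  let P : Ideal (𝓞 M) := v.asIdeal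
  haveI : P.IsPrime := v.isPrime
  haveI : P.IsMaximal := v.isMaximal
  let p : Ideal ℤ := P.under ℤ
  haveI : P.LiesOver p := ⟨rfl⟩
  haveI : p.IsMaximal := Ideal.isMaximal_comap_of_isIntegral_of_isMaximal P
  letI : Field (ℤ ⧸ p) := Ideal.Quotient.field p
  letI : Field (𝓞 M ⧸ P) := Ideal.Quotient.field P
  haveI : Finite (𝓞 M ⧸ P) := Ideal.finiteQuotientOfFreeOfNeBot _ v.ne_bot
  have hstab : ∀ σ : M ≃ₐ[K] M, σ ∈ MulAction.stabilizer (M ≃ₐ[K] M) P := by
    intro σ
    rw [MulAction.mem_stabilizer_iff]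
    ext x
    rw [Ideal.mem_pointwise_smul_iff_inv_smul_mem]
    exact hmem σ⁻¹ x
  have hinj : Function.Injective (Ideal.Quotient.stabilizerHom P p (M ≃ₐ[K] M)) := by
    rw [injective_iff_map_eq_one]
    intro σ hσ
    have h1 : ∀ b : 𝓞 M, (σ : M ≃ₐ[K] M) • b - b ∈ P := by
      intro b
      have h2 := DFunLike.congr_fun hσ (Ideal.Quotient.mk P b)
      rw [← Ideal.Quotient.eq]
      exact h2
    obtain ⟨σ, hσs⟩ := σ
    apply Subtype.ext
    exact hur σ h1
  haveI h8 : IsCyclic ((𝓞 M ⧸ P) ≃ₐ[ℤ ⧸ p] (𝓞 M ⧸ P)) := inferInstance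
  haveI h9 : IsCyclic (MulAction.stabilizer (M ≃ₐ[K] M) P) := isCyclic_of_injective _ hinj
  have h10 : MulAction.stabilizer (M ≃ₐ[K] M) P = ⊤ := by
    rw [eq_top_iff]
    exact fun σ _ => hstab σ
  rw [h10] at h9
  exact isCyclic_of_surjective (Subgroup.topEquiv (G := M ≃ₐ[K] M)) (Subgroup.topEquiv).surjective

/-- The root number over a non-cyclic Galois extension of degree `2 ^ n`. -/
theorem root_one [IsGalois K M] {n : ℕ} (hn : Module.finrank K M = 2 ^ n)
    (hcyc : ¬ IsCyclic (M ≃ₐ[K] M))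
    (hemb : ∀ w : HeightOneSpectrum (𝓞 K), (2 : 𝓞 K) ∈ w.asIdeal →
      Nonempty (M →ₐ[K] w.adicCompletion K)) (hinf : Even (Nat.card (InfinitePlace M)))
    {f : (𝓞 K)[X]} (hm : f.Monic) (hi : Irreducible (fF (fM M f)))
    (hram : ∀ w : HeightOneSpectrum (𝓞 M), Unr K w ∨ Irreducible (rd (below K w).asIdeal f))
    {w : HeightOneSpectrum (𝓞 M) → ℤ} (hw : Signs K (fM M f) w) (g : ℕ) :
    (-1 : ℤ) ^ (g * Nat.card (InfinitePlace M)) * ∏ᶠ v, w v = 1 := by
  have hfin := hw.finite (hm.map _) hi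
  rw [Pool.Agent.H25P.pr hn w hw.sign hfin hw.conj]
  have h1 : {v | w v = -1 ∧ Fixed K v} = ∅ := by
    rw [Set.eq_empty_iff_forall_notMem]
    rintro v ⟨hv, hfix⟩
    by_cases h2 : (2 : 𝓞 M) ∈ v.asIdeal
    · have h2u : (2 : 𝓞 K) ∈ (below K v).asIdeal := by
        rw [mem_below, map_ofNat]
        exact h2
      obtain ⟨φ⟩ := hemb _ h2u
      have h3 := Pool.Agent.H25P.card_of_fixed hfix (u := below K v) (fun a ha => ha) φ
      apply hcyc
      exact ⟨1, fun τ => by rw [h3 τ]; exact Subgroup.mem_zpowers _⟩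
    · rcases hram v with h3 | h3
      · exact hcyc (cyclic_of_unr hfix h3)
      · have h4 := hw.good v h2 (Pool.Agent.H25P.sep_up (𝔭 := (below K v).asIdeal) rfl
          (below K v).ne_bot h3)
        rw [hv] at h4
        exact absurd h4 (by decide)
  rw [h1, Set.ncard_empty, pow_zero, mul_one]
  exact (hinf.mul_left g).neg_one_pow

/-! ### The extension given by `γ` -/

theorem aut_eq_one {γ : M} (htop : ℚ⟮γ⟯ = ⊤) {σ : M ≃ₐ[K] M} (h : σ γ = γ) : σ = 1 := by
  have h3 : ∀ x : M, σ x = x := by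
    intro x
    have hx : x ∈ ℚ⟮γ⟯ := by rw [htop]; trivial
    let E : IntermediateField ℚ M :=
      IntermediateField.fixedField (Subgroup.zpowers (σ.restrictScalars ℚ))
    have h4 : ℚ⟮γ⟯ ≤ E := by
      rw [IntermediateField.adjoin_simple_le_iff]
      rintro ⟨τ, hτ⟩
      have h5 : ∀ n : ℤ, ((σ.restrictScalars ℚ) ^ n) γ = γ := by
        have h6 : σ.restrictScalars ℚ ∈
            MulAction.stabilizer (M ≃ₐ[ℚ] M) γ := h
        intro n
        exact Subgroup.zpow_mem _ h6 n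
      obtain ⟨n, rfl⟩ := Subgroup.mem_zpowers_iff.1 hτ
      exact h5 n
    have h5 := h4 hx
    exact h5 ⟨σ.restrictScalars ℚ, Subgroup.mem_zpowers _⟩
  ext x
  exact h3 x

/-- An automorphism which is trivial on the class of `γ` modulo a prime not over `δ`. -/
theorem aut_of_mod {v : HeightOneSpectrum (𝓞 M)} {γ : M} {m : ℤ[X]}
    {δ : ℤ} (hG : Gen ℚ γ m δ) (hδ : (δ : 𝓞 M) ∉ v.asIdeal) {a : 𝓞 M} (ha : (a : M) = γ)
    {σ : M ≃ₐ[K] M} (h1 : σ • a - a ∈ v.asIdeal) : σ = 1 := by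
  apply aut_eq_one hG.top
  by_contra hne
  have hroot : ∀ σ : M ≃ₐ[K] M, (m.map (Int.castRingHom (𝓞 M))).eval (σ • a) = 0 := by
    intro σ
    apply NumberField.RingOfIntegers.ext
    rw [eval_map]
    have e1 : (algebraMap (𝓞 M) M) (eval₂ (Int.castRingHom (𝓞 M)) (σ • a) m) =
        eval₂ ((algebraMap (𝓞 M) M).comp (Int.castRingHom (𝓞 M))) (σ γ) m := by
      rw [hom_eval₂]
      congr 1
      rw [← ha]
      rfl
    have e2 : eval₂ ((algebraMap (𝓞 M) M).comp (Int.castRingHom (𝓞 M))) (σ γ) m =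
        σ (aeval γ m) := by
      rw [aeval_def]
      have h3 := Polynomial.hom_eval₂ m (algebraMap ℤ M) (σ : M →+* M) γ
      have h4 : (σ : M →+* M).comp (algebraMap ℤ M) =
          (algebraMap (𝓞 M) M).comp (Int.castRingHom (𝓞 M)) := RingHom.ext_int _ _
      rw [h4] at h3
      exact h3.symm
    exact e1.trans (e2.trans (by rw [hG.root, map_zero]; rfl))
  have hab : σ • a ≠ a := by
    intro hc
    apply hne
    rw [← ha, ← smul_coe, hc]
  obtain ⟨q, hq⟩ : (X - C a) ∣ m.map (Int.castRingHom (𝓞 M)) := by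
    rw [dvd_iff_isRoot]
    have := hroot 1
    rwa [one_smul] at this
  have h2 : q.eval (σ • a) = 0 := by
    have h3 := hroot σ
    rw [hq, eval_mul, eval_sub, eval_X, eval_C] at h3
    exact (mul_eq_zero.1 h3).resolve_left (sub_ne_zero.2 hab)
  have h3 : (derivative (m.map (Int.castRingHom (𝓞 M)))).eval a = q.eval a := by
    rw [hq, derivative_mul, eval_add, eval_mul, eval_mul, derivative_sub, derivative_X,
      derivative_C, eval_sub, eval_sub, eval_X, eval_C, eval_one, eval_zero]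
    ring
  have h4 : q.eval a ∈ v.asIdeal := by
    have h5 : (σ • a) - a ∣ q.eval (σ • a) - q.eval a := sub_dvd_eval_sub _ _ _
    rw [h2, zero_sub, dvd_neg] at h5
    exact v.asIdeal.mem_of_dvd h5 h1
  obtain ⟨u, w, huw⟩ := hG.comb
  apply hδ
  have h5 := congrArg (fun t : ℤ[X] => (t.map (Int.castRingHom (𝓞 M))).eval a) huw
  simp only [Polynomial.map_add, Polynomial.map_mul, eval_add, eval_mul, map_C, eval_C,
    ← derivative_map] at h5
  have h6 := hroot 1
  rw [one_smul] at h6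
  rw [h6, h3, mul_zero, zero_add] at h5
  have h7 : (Int.castRingHom (𝓞 M)) δ = (δ : 𝓞 M) := rfl
  rw [← h7, h5]
  exact Ideal.mul_mem_left _ _ h4

theorem int_gen {γ : M} {m : ℤ[X]} {δ : ℤ} (hG : Gen ℚ γ m δ) : ∃ a : 𝓞 M, (a : M) = γ := by
  have h1 : IsIntegral ℤ γ := ⟨m, hG.monic, hG.root⟩
  exact ⟨⟨γ, h1⟩, rfl⟩

/-- Primes not over `δ` are unramified. -/
theorem unr_of_gen {v : HeightOneSpectrum (𝓞 M)} {γ : M} {m : ℤ[X]}
    {δ : ℤ} (hG : Gen ℚ γ m δ) (hδ : (δ : 𝓞 M) ∉ v.asIdeal) : Unr K v := by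
  obtain ⟨a, ha⟩ := int_gen hG
  exact fun σ hσ => aut_of_mod hG hδ ha (hσ a)

/-- Primes modulo which `m` splits are completely split. -/
theorem spl_of_gen {v : HeightOneSpectrum (𝓞 M)} {γ : M} {m : ℤ[X]}
    {δ : ℤ} (hG : Gen ℚ γ m δ) (hδ : (δ : 𝓞 M) ∉ v.asIdeal) {q : ℕ} (hq : SplitMod (q : ℤ) m)
    (hv : (q : 𝓞 M) ∈ v.asIdeal) : Spl K v := by
  obtain ⟨a, ha⟩ := int_gen hG
  obtain ⟨l, h, hl⟩ := hq
  have h1 : (m.map (Int.castRingHom (𝓞 M))).eval a = 0 := by
    apply NumberField.RingOfIntegers.ext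
    have h2 : aeval a m = eval a (m.map (Int.castRingHom (𝓞 M))) := by
      rw [aeval_def, eval_map]
      rfl
    have h3 := aeval_algebraMap_apply M a m
    rw [← h2]
    have h4 : algebraMap (𝓞 M) M a = γ := ha
    rw [h4, hG.root] at h3
    exact h3.symm
  have h2 : (l.map fun c : ℤ => a - (c : 𝓞 M)).prod ∈ v.asIdeal := by
    have h3 := congrArg (fun t : ℤ[X] => (t.map (Int.castRingHom (𝓞 M))).eval a) hl
    simp only [Polynomial.map_add, Polynomial.map_mul, eval_add, eval_mul, map_C, eval_C] at h3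
    rw [h1, Polynomial.map_multiset_prod, Polynomial.eval_multiset_prod, Multiset.map_map,
      Multiset.map_map] at h3
    have h4 : (l.map fun c : ℤ => a - (c : 𝓞 M)) = (Multiset.map ((eval a ∘
        Polynomial.map (Int.castRingHom (𝓞 M))) ∘ fun c => X - C c) l) := by
      refine Multiset.map_congr rfl fun c _ => ?_
      simp
    rw [h4]
    have h5 : (Multiset.map ((eval a ∘ Polynomial.map (Int.castRingHom (𝓞 M))) ∘
        fun c => X - C c) l).prod =
        -((Int.castRingHom (𝓞 M)) (q : ℤ) * eval a (Polynomial.map (Int.castRingHom (𝓞 M)) h)) :=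
      eq_neg_of_add_eq_zero_left h3.symm
    rw [h5, Ideal.neg_mem_iff]
    refine Ideal.mul_mem_right _ _ ?_
    simpa using hv
  haveI := v.isPrime
  obtain ⟨c, hc⟩ : ∃ c : ℤ, a - (c : 𝓞 M) ∈ v.asIdeal := by
    obtain ⟨x, hx, hxv⟩ := (Ideal.IsPrime.multiset_prod_mem_iff_exists_mem v.isPrime _).1 h2
    obtain ⟨c, -, rfl⟩ := Multiset.mem_map.1 hx
    exact ⟨c, hxv⟩
  intro σ hσ
  refine aut_of_mod hG hδ ha ?_
  have h6 : σ • (a - (c : 𝓞 M)) ∈ v.asIdeal := by
    rw [← HeightOneSpectrum.valuation_lt_one_iff_mem (K := M)]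
    rw [← HeightOneSpectrum.valuation_lt_one_iff_mem (K := M)] at hc
    have e : v.valuation M (algebraMap (𝓞 M) M (σ • (a - (c : 𝓞 M)))) =
        v.valuation M (algebraMap (𝓞 M) M (a - (c : 𝓞 M))) :=
      hσ (algebraMap (𝓞 M) M (a - (c : 𝓞 M)))
    exact lt_of_eq_of_lt e hc
  have h7 : σ • a - a = σ • (a - (c : 𝓞 M)) - (a - (c : 𝓞 M)) := by
    have h8 : σ • (c : 𝓞 M) = (c : 𝓞 M) := by
      apply NumberField.RingOfIntegers.ext
      rw [smul_coe]
      simp
    rw [smul_sub, h8]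
    ring
  rw [h7]
  exact Ideal.sub_mem _ h6 hc

end fix

end Pool.Agent.H25U
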