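import Pool.Agent.H25U.Sel
import Pool.Agent.H25U.Root
import Pool.Agent.H25U.Count

/-!
# The theorem for all extensions in the class
-/

set_option autoImplicit false
set_option linter.all false

open IsDedekindDomain NumberField Polynomial
open scoped Classical IntermediateField Pointwise

namespace Pool.Agent.H25U

open Pool.Agent.N922.PQ (Gen SplitMod)
open Pool.Agent.N783.PF
open Pool.Agent.H25P (fM Fixed Signs real_ext even_inf nat_prime_mem)

/-- The extension `M` of `K` is in the class which belongs to `f` and `S`. -/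
structure InCl (K : Type) [Field K] [NumberField K] (S : Finset ℕ) (f : (𝓞 K)[X]) (M : Type)
    [Field M] [NumberField M] [Algebra K M] : Prop where
  deg : ∃ n : ℕ, Module.finrank K M = 2 ^ n
  two : ∀ w : HeightOneSpectrum (𝓞 K), (2 : 𝓞 K) ∈ w.asIdeal →
    Nonempty (M →ₐ[K] w.adicCompletion K)
  inf : IsUnramifiedAtInfinitePlaces K M
  spl : ∀ q ∈ S, ∀ w : HeightOneSpectrum (𝓞 M), (q : 𝓞 M) ∈ w.asIdeal → Spl K w
  ram : ∀ w : HeightOneSpectrum (𝓞 M), Unr K w ∨ Irreducible (rd (below K w).asIdeal f)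

/-- The good polynomials. -/
structure GoodU (K : Type) [Field K] [NumberField K] (M₀ : Type) [Field M₀] [NumberField M₀]
    [Algebra K M₀] (N₀ g : ℕ) (S : Finset ℕ) (f : (𝓞 K)[X]) : Prop where
  mon : f.Monic
  deg : f.natDegree = 2 * g + 1
  irr : Irreducible (fF f)
  min : Min g f
  small : ∀ 𝔭 : Ideal (𝓞 K), 𝔭.IsPrime → (N₀.factorial : 𝓞 K) ∈ 𝔭 → Irreducible (rd 𝔭 f)
  cl : InCl K S f M₀
  sel : ∀ (M : Type) [Field M] [NumberField M] [Algebra K M] [IsGalois K M], InCl K S f M →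
    Irreducible (fF (fM M f)) ∧ SelZero (fM M f) ∧
    (¬ IsCyclic (M ≃ₐ[K] M) → ∀ w : HeightOneSpectrum (𝓞 M) → ℤ, Signs K (fM M f) w →
      ∀ k : ℕ, (-1 : ℤ) ^ (k * Nat.card (InfinitePlace M)) * ∏ᶠ v, w v = 1)

theorem final (K M₀ : Type) [Field K] [NumberField K] [Field M₀] [NumberField M₀] [Algebra K M₀]
    [IsGalois K M₀] (hM₀ : ∃ n : ℕ, Module.finrank K M₀ = 2 ^ n)
    (hemb₀ : ∀ w : HeightOneSpectrum (𝓞 K), (2 : 𝓞 K) ∈ w.asIdeal →
      Nonempty (M₀ →ₐ[K] w.adicCompletion K))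
    (hinf₀ : IsUnramifiedAtInfinitePlaces K M₀) (N₀ g : ℕ) (hg : 1 ≤ g) :
    ∃ S : Finset ℕ, (∀ q ∈ S, q.Prime ∧ N₀ < q) ∧
    ∃ c : ℝ, 0 < c ∧ ∃ B₀ : ℕ, ∀ B ≥ B₀,
    {f : (𝓞 K)[X] | Ht g B f}.Finite ∧ c * ({f : (𝓞 K)[X] | Ht g B f}.ncard : ℝ) ≤
      ({f : (𝓞 K)[X] | Ht g B f ∧ GoodU K M₀ N₀ g S f}.ncard : ℝ) := by
  obtain ⟨κ₀, hκ⟩ := sel K g hg
  obtain ⟨γ, m, δ, hG, -⟩ := Pool.Agent.N40.PQ.gen M₀
  set κ : ℕ := max κ₀ (max δ.natAbs N₀) with hκdef
  have hδκ : δ.natAbs ≤ κ := (le_max_left _ _).trans (le_max_right _ _)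
  have hNκ : N₀ ≤ κ := (le_max_right _ _).trans (le_max_right _ _)
  obtain ⟨S, hS, hmain⟩ := main3 g K hg (fun S f => (∀ q ∈ S, q.Prime ∧ κ < q ∧
      SplitMod (q : ℤ) m) → GoodU K M₀ N₀ g S f) m hG.monic κ
    fun B N W f₁ S 𝔮 r P f hW hpW hf₁ hirr₁ hS hspl hF hBN hB hnb => by
      have hBN0 : 2 ^ κ₀ * B ≤ 4 ^ N :=
        (Nat.mul_le_mul_right _ (Nat.pow_le_pow_right (by norm_num) (le_max_left _ _))).trans hBN
      have hnb0 : ¬ LBad g N κ₀ S 𝔮 P f := fun h =>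
        hnb (Pool.Agent.N170.PF.LBad.mono (le_max_left _ _) h)
      obtain ⟨J, hJ, h0, h1, h2, h3, h4⟩ := hκ B N W f₁ S 𝔮 r P f
        ((le_max_left _ _).trans hW) hf₁ hirr₁ hS hF hBN0 hB hnb0
      have hmD : (f.scaleRoots ((Dp J : ℕ) : 𝓞 K)).Monic := (monic_scaleRoots_iff _).2 hF.ht.mon
      refine ⟨J, hJ, fun hSq => ⟨hmD, ?_, h1, h2, fun 𝔭 hp hN𝔭 => ?_, ?_, ?_⟩⟩
      · rw [natDegree_scaleRoots, hF.ht.deg]
      · -- irreducible modulo the small primes
        have hne : 𝔭 ≠ ⊥ := by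
          rintro rfl
          rw [Ideal.mem_bot] at hN𝔭
          exact (Nat.factorial_ne_zero N₀) (by exact_mod_cast hN𝔭)
        obtain ⟨p, hp1, hp2, hp3⟩ := nat_prime_mem (v := ⟨𝔭, hp, hne⟩) _
          (Nat.factorial_ne_zero N₀) hN𝔭
        refine h3 𝔭 hp ?_
        obtain ⟨k, hk⟩ := hpW p hp1 (((hp1.dvd_factorial).1 hp2).trans hNκ)
        rw [hk, Nat.cast_mul]
        exact Ideal.mul_mem_right _ _ hp3
      · -- the given extension is in the class
        refine ⟨hM₀, hemb₀, hinf₀, fun q hq w hw => ?_, fun w => ?_⟩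
        · refine spl_of_gen (K := K) hG ?_ (hSq q hq).2.2 hw
          intro hδ
          have h5 : ((δ.natAbs : ℕ) : 𝓞 M₀) ∈ w.asIdeal := by
            rcases Int.natAbs_eq δ with e | e
            · rw [e, Int.cast_natCast] at hδ
              exact hδ
            · rw [e, Int.cast_neg, Int.cast_natCast, Ideal.neg_mem_iff] at hδ
              exact hδ
          obtain ⟨p, hp1, hp2, hp3⟩ := nat_prime_mem (v := w) _
            (Int.natAbs_ne_zero.2 hG.ne) h5
          have h6 : p = q := Pool.Agent.H25P.prime_unique hp1 (hSq q hq).1 hp3 hw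
          have h7 : p ≤ κ :=
            (Nat.le_of_dvd (Nat.pos_of_ne_zero (Int.natAbs_ne_zero.2 hG.ne)) hp2).trans hδκ
          have h8 := (hSq q hq).2.1
          omega
        · by_cases hδ : (δ : 𝓞 M₀) ∈ w.asIdeal
          · right
            have h5 : ((δ.natAbs : ℕ) : 𝓞 M₀) ∈ w.asIdeal := by
              rcases Int.natAbs_eq δ with e | e
              · rw [e, Int.cast_natCast] at hδ
                exact hδ
              · rw [e, Int.cast_neg, Int.cast_natCast, Ideal.neg_mem_iff] at hδ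
                exact hδ
            obtain ⟨p, hp1, hp2, hp3⟩ := nat_prime_mem (v := w) _
              (Int.natAbs_ne_zero.2 hG.ne) h5
            have h7 : p ≤ κ :=
              (Nat.le_of_dvd (Nat.pos_of_ne_zero (Int.natAbs_ne_zero.2 hG.ne)) hp2).trans hδκ
            refine h3 _ (below K w).isPrime ?_
            obtain ⟨k, hk⟩ := hpW p hp1 h7
            rw [hk, Nat.cast_mul]
            refine Ideal.mul_mem_right _ _ ?_
            rw [mem_below, map_natCast]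
            exact hp3
          · exact Or.inl (unr_of_gen hG hδ)
      · intro M _ _ _ _ hM
        obtain ⟨n, hn⟩ := hM.deg
        obtain ⟨h5, h6⟩ := h4 M n hn hM.two hM.spl
          (fun ρ => Or.inl (real_ext hM.inf ρ)) hM.ram
        refine ⟨h5, h6, fun hcyc w hw k => ?_⟩
        have hn1 : 1 ≤ n := by
          by_contra h0
          have h1 : n = 0 := by omega
          subst h1
          rw [pow_zero] at hn
          apply hcyc
          haveI : Subsingleton (M ≃ₐ[K] M) := by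
            rw [← Finite.card_le_one_iff_subsingleton, IsGalois.card_aut_eq_finrank K M, hn]
          infer_instance
        exact root_one hn hcyc hM.two (even_inf hn hn1 hM.inf) hmD h5 hM.ram hw k
  refine ⟨S, fun q hq => ⟨(hS q hq).1, hNκ.trans_lt (hS q hq).2.1⟩, ?_⟩
  obtain ⟨c, hc, B₀, h⟩ := hmain
  refine ⟨c, hc, B₀, fun B hB => ?_⟩
  obtain ⟨h1, h2⟩ := h B hB
  refine ⟨h1, h2.trans ?_⟩
  have hsub : {f : (𝓞 K)[X] | Ht g B f ∧ ((∀ q ∈ S, q.Prime ∧ κ < q ∧ SplitMod (q : ℤ) m) →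
      GoodU K M₀ N₀ g S f)} ⊆ {f : (𝓞 K)[X] | Ht g B f ∧ GoodU K M₀ N₀ g S f} :=
    fun f hf => ⟨hf.1, hf.2 hS⟩
  exact_mod_cast Set.ncard_le_ncard hsub (h1.subset fun f hf => hf.1)

end Pool.Agent.H25U
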