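import Pool.Agent.H25U.Cnd

/-!
# The base of the descent (after `H25P/Base.lean`)
-/

set_option autoImplicit false
set_option linter.all false

open Polynomial IsDedekindDomain NumberField
open scoped Classical IntermediateField

namespace Pool.Agent.H25U

open Pool.Agent.N874.PP (Ev Sq1 U0)
open Pool.Agent.N783.PQ (LocIm)
open Pool.Agent.N874.JM (LocF)
open Pool.Agent.N783.PF
open Pool.Agent.H25P (nat_val ev_sq ev_mul locIm_congr locIm_sq locIm_mul ov_iff ov_nat ev_down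
  sq_down prime_unique nat_coprime_mem p_pin p_par p_parq p_ram p_lie nat_down ov_down odd_base
  not_ev val_theta_le)

/-- The conditions on `f`, the primes in `S` and the excluded primes `Z`. -/
structure Setup {K : Type} [Field K] [NumberField K] (g W : ℕ) (f : (𝓞 K)[X]) (S J : Finset ℕ)
    (𝔮 : ℕ → Ideal (𝓞 K)) (r P : ℕ → (𝓞 K)[X]) (Z : Ideal (𝓞 K) → Prop) : Prop where
  hg : 1 ≤ g
  sq : SqF g f
  good : GoodS g W S 𝔮 r P
  con : ∀ q ∈ S, Cg (sp K q) f (P q)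
  sub : J ⊆ S
  two : ∀ 𝔭 : Ideal (𝓞 K), 𝔭.IsPrime → (2 : 𝓞 K) ∈ 𝔭 → Z 𝔭
  irr : ∀ 𝔭 : Ideal (𝓞 K), 𝔭.IsPrime → Z 𝔭 → Irreducible (rd 𝔭 f)
  cop : ∀ q ∈ S, ∀ 𝔭 : Ideal (𝓞 K), 𝔭.IsPrime → (q : 𝓞 K) ∈ 𝔭 → ¬ Z 𝔭

section su

variable {K : Type} [Field K] [NumberField K] {g W : ℕ} {f : (𝓞 K)[X]} {S J : Finset ℕ}
    {𝔮 : ℕ → Ideal (𝓞 K)} {r P : ℕ → (𝓞 K)[X]} {Z : Ideal (𝓞 K) → Prop}

theorem Setup.prm (H : Setup g W f S J 𝔮 r P Z) {q : ℕ} (hq : q ∈ S) : q.Prime :=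
  (H.good q hq).1

theorem Setup.qmem (H : Setup g W f S J 𝔮 r P Z) {q : ℕ} (hq : q ∈ S) : (q : 𝓞 K) ∈ 𝔮 q := by
  obtain ⟨-, -, -, -, -, -, a2, -⟩ := H.good q hq
  exact a2

theorem Setup.qpr (H : Setup g W f S J 𝔮 r P Z) {q : ℕ} (hq : q ∈ S) : (𝔮 q).IsPrime := by
  obtain ⟨-, -, -, -, -, a1, -⟩ := H.good q hq
  exact a1

theorem Setup.qne (H : Setup g W f S J 𝔮 r P Z) {q : ℕ} (hq : q ∈ S) : 𝔮 q ≠ ⊥ := by
  intro h0
  have h1 := H.qmem hq
  rw [h0, Ideal.mem_bot] at h1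
  exact (H.prm hq).ne_zero (by exact_mod_cast h1)

/-- The congruence modulo `𝔮 q`. -/
theorem Setup.cq (H : Setup g W f S J 𝔮 r P Z) {q : ℕ} (hq : q ∈ S) :
    Cg (𝔮 q) f (X * r q) := by
  intro j
  obtain ⟨-, -, -, -, -, -, a2, -, -, -, -, -, -, a3, -⟩ := H.good q hq
  have b1 := Pool.Agent.N78.PF.sp_le (F := K) a2 (H.con q hq j)
  have b2 := a3 j
  have := Ideal.add_mem _ b1 b2
  simpa using this

theorem Setup.q2 (H : Setup g W f S J 𝔮 r P Z) {q : ℕ} (hq : q ∈ S) : q ≠ 2 := by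
  obtain ⟨-, -, -, a, -⟩ := H.good q hq
  rintro rfl
  norm_num at a

theorem Setup.notZ (H : Setup g W f S J 𝔮 r P Z) {F : Type} [Field F] [NumberField F]
    [Algebra K F] {v : HeightOneSpectrum (𝓞 F)} {q : ℕ} (hq : q ∈ S)
    (h : (q : 𝓞 F) ∈ v.asIdeal) : ¬ Z (below K v).asIdeal := by
  refine H.cop q hq _ (below K v).isPrime ?_
  rw [mem_below, map_natCast]
  exact h

theorem Setup.not2 (H : Setup g W f S J 𝔮 r P Z) {F : Type} [Field F] [NumberField F]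
    [Algebra K F] {v : HeightOneSpectrum (𝓞 F)} (h : ¬ Z (below K v).asIdeal) :
    (2 : 𝓞 F) ∉ v.asIdeal := by
  intro h2
  apply h
  refine H.two _ (below K v).isPrime ?_
  rw [mem_below, map_ofNat]
  exact h2

end su

/-- The conditions on the extension `M`. -/
structure Ext (K : Type) [Field K] [NumberField K] (M : Type) [Field M] [NumberField M]
    [Algebra K M] (S : Finset ℕ) (Z : Ideal (𝓞 K) → Prop) : Prop where
  ur : ∀ w : HeightOneSpectrum (𝓞 M), ¬ Z (below K w).asIdeal → Unr K w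
  sp : ∀ q ∈ S, ∀ w : HeightOneSpectrum (𝓞 M), (q : 𝓞 M) ∈ w.asIdeal → Spl K w

section base

variable {K L M Ω : Type} [Field K] [NumberField K] [Field L] [NumberField L] [Algebra K L]
  [Field M] [NumberField M] [Algebra K M] [Field Ω] [NumberField Ω] [Algebra K Ω] [Algebra L Ω]
  [Algebra M Ω] [IsScalarTower K M Ω] [IsScalarTower K L Ω]
  {g W : ℕ} {f : (𝓞 K)[X]} {S J : Finset ℕ} {𝔮 : ℕ → Ideal (𝓞 K)} {r P : ℕ → (𝓞 K)[X]}
  {Z : Ideal (𝓞 K) → Prop} {θ : L} {γ : M}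

theorem alg_alg {A B C : Type} [Field A] [NumberField A] [Field B] [NumberField B] [Field C]
    [NumberField C] [Algebra A B] [Algebra B C] [Algebra A C] [IsScalarTower A B C] (a : 𝓞 A) :
    algebraMap (𝓞 B) (𝓞 C) (algebraMap (𝓞 A) (𝓞 B) a) = algebraMap (𝓞 A) (𝓞 C) a := by
  apply NumberField.RingOfIntegers.ext
  exact (IsScalarTower.algebraMap_apply A B C (a : A)).symm

theorem below_below {A B C : Type} [Field A] [NumberField A] [Field B] [NumberField B] [Field C]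
    [NumberField C] [Algebra A B] [Algebra B C] [Algebra A C] [IsScalarTower A B C]
    (v : HeightOneSpectrum (𝓞 C)) : below A (below B v) = below A v := by
  apply HeightOneSpectrum.ext
  ext a
  rw [mem_below, mem_below, mem_below, alg_alg]

/-- The primes which are not excluded come from `L`. -/
theorem down [IsGalois K M] (E : Ext K M S Z) (htop : L⟮algebraMap M Ω γ⟯ = ⊤)
    (𝔓' : HeightOneSpectrum (𝓞 Ω)) (h : ¬ Z (below K 𝔓').asIdeal) (x : L) :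
    𝔓'.valuation Ω (algebraMap L Ω x) = (below L 𝔓').valuation L x := by
  haveI := galois_up (K := K) htop
  refine val_below (Unr.up (K := K) (M := M) htop (E.ur _ ?_)) x
  rw [below_below]
  exact h

theorem up [IsGalois K M] (E : Ext K M S Z) (htop : L⟮algebraMap M Ω γ⟯ = ⊤)
    (𝔓 : HeightOneSpectrum (𝓞 L)) (h : ¬ Z (below K 𝔓).asIdeal) :
    ∃ 𝔓' : HeightOneSpectrum (𝓞 Ω), below K 𝔓' = below K 𝔓 ∧
      ∀ x : L, 𝔓'.valuation Ω (algebraMap L Ω x) = 𝔓.valuation L x := by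
  haveI := 𝔓.isMaximal
  haveI : Algebra.IsIntegral (𝓞 L) (𝓞 Ω) := inferInstance
  obtain ⟨Q, hQm, hQ⟩ := Ideal.exists_ideal_over_maximal_of_isIntegral (S := 𝓞 Ω) 𝔓.asIdeal (by
    rw [(RingHom.injective_iff_ker_eq_bot _).1
      (FaithfulSMul.algebraMap_injective (𝓞 L) (𝓞 Ω))]
    exact bot_le)
  have hQ0 : Q ≠ ⊥ := by
    rintro rfl
    apply 𝔓.ne_bot
    rw [← hQ, ← RingHom.ker_eq_comap_bot]
    exact (RingHom.injective_iff_ker_eq_bot _).1 (FaithfulSMul.algebraMap_injective (𝓞 L) (𝓞 Ω))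
  let 𝔓' : HeightOneSpectrum (𝓞 Ω) := ⟨Q, hQm.isPrime, hQ0⟩
  have hb : below L 𝔓' = 𝔓 := HeightOneSpectrum.ext hQ
  have hb' : below K 𝔓' = below K 𝔓 := by rw [← hb, below_below]
  refine ⟨𝔓', hb', fun x => ?_⟩
  rw [down E htop 𝔓' (by rw [hb']; exact h), hb]

/-- Density at the primes over `q`. -/
theorem dense [IsGalois K M] (E : Ext K M S Z) (htop : L⟮algebraMap M Ω γ⟯ = ⊤) {q : ℕ}
    (hq : q ∈ S) {𝔓' : HeightOneSpectrum (𝓞 Ω)} (h : (q : 𝓞 Ω) ∈ 𝔓'.asIdeal) (s : Ω)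
    (hs : s ≠ 0) : ∃ s₀ : L, 𝔓'.valuation Ω (s - algebraMap L Ω s₀) < 𝔓'.valuation Ω s := by
  haveI := galois_up (K := K) htop
  refine dense_of_spl (Spl.up (K := K) (M := M) htop (E.sp q hq _ ?_)) s hs
  rw [mem_below, map_natCast]
  exact h

/-- The element `q θ` has odd valuation at the primes of `L`. -/
theorem odd_base' (H : Setup g W f S J 𝔮 r P Z) (hG : IsGen g f θ) {q : ℕ} (hq : q ∈ S)
    (𝔓 : HeightOneSpectrum (𝓞 L)) (h1 : Ov (𝔮 q) 𝔓) (h2 : 𝔓.valuation L θ = 1) :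
    𝔓.valuation L (q : L) = WithZero.exp (-1 : ℤ) := by
  obtain ⟨𝔓₁, 𝔓₂, e1, e2, e3, e4, e5, e6, e7⟩ := exq g W K L f θ S 𝔮 r P H.hg hG H.sq H.good q hq
    (H.cq hq)
  rcases e7 𝔓 h1 with rfl | rfl
  · exact e5
  · exact e6

/-- The element `q θ` has odd valuation at the primes of `Ω`. -/
theorem odd_top [IsGalois K M] (H : Setup g W f S J 𝔮 r P Z) (E : Ext K M S Z)
    (htop : L⟮algebraMap M Ω γ⟯ = ⊤) (hG : IsGen g f θ) {q : ℕ}
    (hq : q ∈ S) (𝔓 : HeightOneSpectrum (𝓞 Ω)) (h1 : Ov (𝔮 q) 𝔓)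
    (h2 : 𝔓.valuation Ω (algebraMap L Ω θ) = 1) :
    𝔓.valuation Ω (q : Ω) = WithZero.exp (-1 : ℤ) ∧ ¬ Ev 𝔓 ((q : Ω) * algebraMap L Ω θ) := by
  have hqm := ov_nat h1 (H.qmem hq)
  have hv := down (L := L) E htop 𝔓 (H.notZ hq hqm)
  have h3 := (ov_down hv (𝔮 q)).1 h1
  rw [hv] at h2
  have h4 := odd_base' H hG hq _ h3 h2
  have h5 : 𝔓.valuation Ω (q : Ω) = WithZero.exp (-1 : ℤ) := by
    rw [← h4, ← hv, map_natCast (algebraMap L Ω)]
  refine ⟨h5, not_ev ?_⟩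
  rw [map_mul, h5, hv, h2, mul_one]

/-- The base of the descent. -/
theorem base [IsGalois K M] (H : Setup g W f S J 𝔮 r P Z) (E : Ext K M S Z)
    (htop : L⟮algebraMap M Ω γ⟯ = ⊤) (hG : IsGen g f θ)
    (hcore : ∀ h : K[X], aeval θ h ≠ 0 → IsSquare (Algebra.norm K (aeval θ h)) →
      (∀ 𝔓 : HeightOneSpectrum (𝓞 L), (∀ q ∈ J, Ov (𝔮 q) 𝔓 → 𝔓.valuation L θ ≠ 1) →
        Ev 𝔓 (aeval θ h)) →
      (∀ q ∈ J, ∀ 𝔓 : HeightOneSpectrum (𝓞 L), Ov (𝔮 q) 𝔓 → 𝔓.valuation L θ = 1 →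
        U0 𝔓 ((q : L) * θ) (aeval θ h)) →
      (∀ w : HeightOneSpectrum (𝓞 K), (2 : 𝓞 K) ∈ w.asIdeal →
        LocF (w.adicCompletion K) (fF f) h) →
      (∀ σ : K →+* ℝ, LocIm ℝ ((fF f).map σ) (h.map σ)) → IsSquare (aeval θ h))
    (hemb : ∀ w : HeightOneSpectrum (𝓞 K), (2 : 𝓞 K) ∈ w.asIdeal →
      Nonempty (M →ₐ[K] w.adicCompletion K))
    (hreal : ∀ ρ : K →+* ℝ, (∃ τ : M →+* ℝ, τ.comp (algebraMap K M) = ρ) ∨
      ∀ h : K[X], aeval θ h ≠ 0 → IsSquare (Algebra.norm K (aeval θ h)) →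
        LocIm ℝ ((fF f).map ρ) (h.map ρ))
    {x : L} (hx : x ≠ 0)
    (hC : Cnd f Z J 𝔮 M (algebraMap L Ω θ) (algebraMap L Ω (aeval θ (derivative (fF f))))
      (algebraMap L Ω x))
    (hN : IsSquare (Algebra.norm K x)) : IsSquare x := by
  obtain ⟨h, rfl⟩ : ∃ h : K[X], aeval θ h = x := by
    obtain ⟨c, hc⟩ := hG.gen x
    refine ⟨∑ i, C (c i) * X ^ (i : ℕ), ?_⟩
    rw [hc, map_sum]
    refine Finset.sum_congr rfl fun i _ => ?_
    rw [map_mul, aeval_C, map_pow, aeval_X]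
  have hmap : aeval (algebraMap L Ω θ) (h.map (algebraMap K M)) = algebraMap L Ω (aeval θ h) := by
    rw [aeval_map_algebraMap, aeval_algebraMap_apply]
  refine hcore h hx hN (fun 𝔓 h𝔓 => ?_) (fun q hq 𝔓 h1 h2 => ?_) (fun w hw => ?_) fun ρ => ?_
  · -- even valuations
    obtain ⟨w, w1, w2, w3⟩ := p_lie K L 𝔓
    by_cases hW : Z w.asIdeal
    · exact p_pin g K L f θ hG H.sq w.asIdeal w.isPrime w.ne_bot (H.irr _ w.isPrime hW) _ hx hN 𝔓 w1
    by_cases cq : ∃ q ∈ J, (q : 𝓞 K) ∈ w.asIdeal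
    · obtain ⟨q, hq, hqw⟩ := cq
      have hqS := H.sub hq
      by_cases cw : w.asIdeal = 𝔮 q
      · have o1 : Ov (𝔮 q) 𝔓 := by
          rw [← cw]
          exact w1
        have v1 : 𝔓.valuation L θ < 1 := lt_of_le_of_ne (val_theta_le hG 𝔓) (h𝔓 q hq o1)
        exact p_parq g W K L f θ S 𝔮 r P H.hg hG H.sq H.good q hqS (H.cq hqS) _ hx hN 𝔓 o1 v1
      · have e1 := Pool.Agent.N78.PF.rd_eq (Pool.Agent.N78.PF.sp_le hqw) (H.con q hqS)
        obtain ⟨-, -, -, -, -, -, -, -, -, -, -, -, -, -, a1⟩ := H.good q hqS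
        exact p_pin g K L f θ hG H.sq w.asIdeal w.isPrime w.ne_bot
          (by rw [e1]; exact a1 _ w.isPrime hqw cw) _ hx hN 𝔓 w1
    · -- the other primes
      have key : ∀ 𝔓' : HeightOneSpectrum (𝓞 L), Ov w.asIdeal 𝔓' →
          𝔓'.valuation L (aeval θ (derivative (fF f))) = 1 → Ev 𝔓' (aeval θ h) := by
        intro 𝔓' o' hu
        have hbw : w.asIdeal = (below K 𝔓').asIdeal := by
          have hmax : w.asIdeal.IsMaximal := w.isMaximal
          exact hmax.eq_of_le (below K 𝔓').isPrime.ne_top fun a ha => o' a ha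
        have hnat : ∀ n : ℕ, (n : 𝓞 K) ∉ w.asIdeal → (n : 𝓞 L) ∉ 𝔓'.asIdeal := by
          intro n hn hc
          apply hn
          rw [hbw, mem_below, map_natCast]
          exact hc
        have hW' : ¬ Z (below K 𝔓').asIdeal := by rw [← hbw]; exact hW
        obtain ⟨𝔓₁, hb₁, hv⟩ := up E htop 𝔓' hW'
        rw [← ev_down hv]
        refine hC.ev 𝔓₁ ?_ ?_ ?_
        · rw [hb₁]
          exact hW'
        · intro q hq
          rw [nat_down hv]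
          exact hnat q fun hc => cq ⟨q, hq, hc⟩
        · rw [hv]
          exact hu
      by_cases cu : 𝔓.valuation L (aeval θ (derivative (fF f))) = 1
      · exact key 𝔓 w1 cu
      · have v1 : 𝔓.valuation L (aeval θ (derivative (fF f))) < 1 :=
          lt_of_le_of_ne (Pool.Agent.N78.PF.val_der hG 𝔓) cu
        obtain ⟨⟨c, hc⟩, hother⟩ := p_ram g K L f θ hG H.sq w.asIdeal w.isPrime w.ne_bot 𝔓 w1 v1
        exact p_par g K L f θ hG H.sq w.asIdeal w.isPrime w.ne_bot 𝔓 c w1 hc _ hx hN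
          fun 𝔓' o' n' => key 𝔓' o' (hother 𝔓' o' n')
  · -- the primes over `𝔮 q`
    have hqS := H.sub hq
    have hqm := ov_nat h1 (H.qmem hqS)
    obtain ⟨𝔓', -, hv⟩ := up E htop 𝔓 (H.notZ hqS hqm)
    have h1' := (ov_down hv (𝔮 q)).2 h1
    have hd := dense E htop hqS ((nat_down hv q).2 hqm)
    have h3 := hC.u0 q hq 𝔓' h1' (by rw [hv]; exact h2)
    refine ⟨fun h4 => sq_down hv hd (h3.1 ((ev_down hv _).2 h4)), fun h4 => ?_⟩
    have h5 := h3.2 fun h6 => h4 ((ev_down hv _).1 h6)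
    have e : algebraMap L Ω (aeval θ h) * ((q : Ω) * algebraMap L Ω θ) =
        algebraMap L Ω (aeval θ h * ((q : L) * θ)) := by
      rw [map_mul, map_mul, map_natCast]
    rw [e] at h5
    exact sq_down hv hd h5
  · obtain ⟨φ⟩ := hemb w hw
    have h1 := hC.two w hw φ _ hmap
    have e : (h.map (algebraMap K M)).map φ.toRingHom =
        h.map (algebraMap K (w.adicCompletion K)) := by
      rw [Polynomial.map_map]
      congr 1
      exact φ.comp_algebraMap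
    rw [e] at h1
    exact h1
  · rcases hreal ρ with ⟨τ, hτ⟩ | h9
    · have h1 := hC.real τ _ hmap
      have e : (h.map (algebraMap K M)).map τ = h.map ρ := by
        rw [Polynomial.map_map, hτ]
      rw [e, hτ] at h1
      exact h1
    · exact h9 h hx hN

end base

end Pool.Agent.H25U
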