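import Pool.Agent.H25U.Tow

/-!
# Conditions over the extension, descent (after `H25P/Cnd.lean`, with a set `Z` of excluded primes)
-/

set_option autoImplicit false
set_option linter.all false

open Polynomial IsDedekindDomain NumberField
open scoped Classical IntermediateField

namespace Pool.Agent.H25U

open Pool.Agent.N874.PP (Ev Sq1 U0)
open Pool.Agent.N783.PQ (LocIm)
open Pool.Agent.N874.JM (LocF)
open Pool.Agent.N783.PF
open Pool.Agent.H25P (nat_val ev_sq ev_mul locIm_congr locIm_sq locIm_mul ov_iff ov_nat)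

section cond

variable {K M Ω : Type} [Field K] [NumberField K] [Field M] [NumberField M] [Algebra K M]
  [Field Ω] [NumberField Ω] [Algebra K Ω] [Algebra M Ω] [IsScalarTower K M Ω]

/-- The conditions. -/
structure Cnd (f : (𝓞 K)[X]) (Z : Ideal (𝓞 K) → Prop) (J : Finset ℕ) (𝔮 : ℕ → Ideal (𝓞 K)) (M : Type) [Field M]
    [NumberField M] [Algebra K M] {Ω : Type} [Field Ω] [NumberField Ω] [Algebra K Ω]
    [Algebra M Ω] (θ η x : Ω) : Prop where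
  ev : ∀ 𝔓 : HeightOneSpectrum (𝓞 Ω), ¬ Z (below K 𝔓).asIdeal →
    (∀ q ∈ J, (q : 𝓞 Ω) ∉ 𝔓.asIdeal) → 𝔓.valuation Ω η = 1 → Ev 𝔓 x
  u0 : ∀ q ∈ J, ∀ 𝔓 : HeightOneSpectrum (𝓞 Ω), Ov (𝔮 q) 𝔓 → 𝔓.valuation Ω θ = 1 →
    U0 𝔓 ((q : Ω) * θ) x
  two : ∀ w : HeightOneSpectrum (𝓞 K), (2 : 𝓞 K) ∈ w.asIdeal →
    ∀ (φ : M →ₐ[K] w.adicCompletion K) (h : M[X]), aeval θ h = x →
      LocIm (w.adicCompletion K) ((fF f).map (algebraMap K (w.adicCompletion K)))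
        (h.map φ.toRingHom)
  real : ∀ (τ : M →+* ℝ) (h : M[X]), aeval θ h = x →
    LocIm ℝ ((fF f).map (τ.comp (algebraMap K M))) (h.map τ)

variable {f : (𝓞 K)[X]} {Z : Ideal (𝓞 K) → Prop} {J : Finset ℕ} {𝔮 : ℕ → Ideal (𝓞 K)} {θ η : Ω}

theorem cnd_sq (g1 : ∀ x : Ω, ∃ h : M[X], aeval θ h = x)
    (g2 : ∀ h : M[X], aeval θ h = 0 → (fF f).map (algebraMap K M) ∣ h) {x : Ω} (hx : x ≠ 0) :
    Cnd f Z J 𝔮 M θ η (x ^ 2) := by
  have key : ∀ h : M[X], aeval θ h = x ^ 2 → ∃ s : M[X], (fF f).map (algebraMap K M) ∣ s ^ 2 - h := by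
    intro h hh
    obtain ⟨s, hs⟩ := g1 x
    refine ⟨s, g2 _ ?_⟩
    rw [map_sub, map_pow, hs, hh, sub_self]
  refine ⟨fun 𝔓 _ _ _ => ev_sq 𝔓 x, fun q _ 𝔓 _ _ => ?_, fun w hw φ h hh => ?_, fun τ h hh => ?_⟩
  · refine ⟨fun _ => ⟨x, ?_⟩, fun h => absurd (ev_sq 𝔓 x) h⟩
    rw [sub_self, map_zero, zero_lt_iff]
    exact (Valuation.ne_zero_iff _).2 (pow_ne_zero _ hx)
  · obtain ⟨s, hs⟩ := key h hh
    have h1 := Polynomial.map_dvd φ.toRingHom hs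
    rw [Polynomial.map_map, Polynomial.map_sub, Polynomial.map_pow] at h1
    have e : φ.toRingHom.comp (algebraMap K M) = algebraMap K (w.adicCompletion K) :=
      φ.comp_algebraMap
    rw [e] at h1
    exact locIm_congr h1 (locIm_sq _ _)
  · obtain ⟨s, hs⟩ := key h hh
    have h1 := Polynomial.map_dvd τ hs
    rw [Polynomial.map_map, Polynomial.map_sub, Polynomial.map_pow] at h1
    exact locIm_congr h1 (locIm_sq _ _)

theorem cnd_mul (g1 : ∀ x : Ω, ∃ h : M[X], aeval θ h = x)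
    (g2 : ∀ h : M[X], aeval θ h = 0 → (fF f).map (algebraMap K M) ∣ h)
    (hJ : ∀ q ∈ J, q.Prime ∧ q ≠ 2 ∧ (q : 𝓞 K) ∈ 𝔮 q)
    (hϖ : ∀ q ∈ J, ∀ 𝔓 : HeightOneSpectrum (𝓞 Ω), Ov (𝔮 q) 𝔓 → 𝔓.valuation Ω θ = 1 →
      ¬ Ev 𝔓 ((q : Ω) * θ)) {x y : Ω} (hx : x ≠ 0) (hy : y ≠ 0)
    (h : Cnd f Z J 𝔮 M θ η x) (h' : Cnd f Z J 𝔮 M θ η y) : Cnd f Z J 𝔮 M θ η (x * y) := by
  refine ⟨fun 𝔓 a b c => ev_mul (h.ev 𝔓 a b c) (h'.ev 𝔓 a b c), fun q hq 𝔓 h1 h3 => ?_,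
    fun w hw φ t ht => ?_, fun τ t ht => ?_⟩
  · have h4 := hϖ q hq 𝔓 h1 h3
    have h5 : (q : Ω) * θ ≠ 0 := by
      intro h0
      apply h4
      rw [h0]
      exact ⟨0, by simp⟩
    obtain ⟨q1, q2, q3⟩ := hJ q hq
    have h6 : Prime (q : ℤ) := Nat.prime_iff_prime_int.1 q1
    have h7 : ¬ (q : ℤ) ∣ 2 := by
      intro hd
      have h8 : q ∣ 2 := by exact_mod_cast hd
      exact q2 ((Nat.prime_dvd_prime_iff_eq q1 Nat.prime_two).1 h8)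
    have h8 : Pool.Agent.N922.PQ.Ov (q : ℤ) 𝔓 := by
      unfold Pool.Agent.N922.PQ.Ov
      rw [Int.cast_natCast]
      exact ov_nat h1 q3
    exact ((Pool.Agent.N42.PQ.cls Ω (𝓞 Ω) (q : ℤ) 𝔓 _ h6 h7 h8 h5 h4 x y hx hy).2).2
      ⟨fun _ => h'.u0 q hq 𝔓 h1 h3, fun _ => h.u0 q hq 𝔓 h1 h3⟩
  · obtain ⟨a, ha⟩ := g1 x
    obtain ⟨b, hb⟩ := g1 y
    have hs : (fF f).map (algebraMap K M) ∣ a * b - t := g2 _ (by
      rw [map_sub, map_mul, ha, hb, ht, sub_self])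
    have h1 := Polynomial.map_dvd φ.toRingHom hs
    rw [Polynomial.map_map, Polynomial.map_sub, Polynomial.map_mul] at h1
    have e : φ.toRingHom.comp (algebraMap K M) = algebraMap K (w.adicCompletion K) :=
      φ.comp_algebraMap
    rw [e] at h1
    exact locIm_congr h1 (locIm_mul (h.two w hw φ a ha) (h'.two w hw φ b hb))
  · obtain ⟨a, ha⟩ := g1 x
    obtain ⟨b, hb⟩ := g1 y
    have hs : (fF f).map (algebraMap K M) ∣ a * b - t := g2 _ (by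
      rw [map_sub, map_mul, ha, hb, ht, sub_self])
    have h1 := Polynomial.map_dvd τ hs
    rw [Polynomial.map_map, Polynomial.map_sub, Polynomial.map_mul] at h1
    exact locIm_congr h1 (locIm_mul (h.real τ a ha) (h'.real τ b hb))

theorem cnd_sig [Normal K M] {L : Type} [Field L] [Algebra K L] [Algebra L Ω]
    [IsScalarTower K L Ω] {θ₀ η₀ : L} (hθ : θ = algebraMap L Ω θ₀) (hη : η = algebraMap L Ω η₀)
    (σ : Ω ≃ₐ[L] Ω) {x : Ω} (h : Cnd f Z J 𝔮 M θ η x) : Cnd f Z J 𝔮 M θ η (σ x) := by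
  have hf : ∀ y : L, σ (algebraMap L Ω y) = algebraMap L Ω y := fun y => σ.commutes y
  have hp : ∀ n : ℕ, σ (n : Ω) = (n : Ω) := fun n => map_natCast σ n
  have key := Pool.Agent.N415.PQ.sig Ω (𝓞 Ω) (σ : Ω ≃+* Ω)
  have hev : ∀ (𝔓 𝔓' : HeightOneSpectrum (𝓞 Ω)),
      (∀ y : Ω, 𝔓'.valuation Ω y = 𝔓.valuation Ω (σ y)) → ∀ y : Ω, Ev 𝔓' y ↔ Ev 𝔓 (σ y) := by
    intro 𝔓 𝔓' hv y
    constructor
    · rintro ⟨z, hz⟩
      exact ⟨σ z, by rw [← hv, ← hv, hz]⟩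
    · rintro ⟨z, hz⟩
      refine ⟨σ.symm z, ?_⟩
      rw [hv, hv, σ.apply_symm_apply, hz]
  have hsq : ∀ (𝔓 𝔓' : HeightOneSpectrum (𝓞 Ω)),
      (∀ y : Ω, 𝔓'.valuation Ω y = 𝔓.valuation Ω (σ y)) → ∀ y : Ω, Sq1 𝔓' y → Sq1 𝔓 (σ y) := by
    rintro 𝔓 𝔓' hv y ⟨z, hz⟩
    refine ⟨σ z, ?_⟩
    rw [hv, hv, map_sub, map_pow] at hz
    exact hz
  have hnat : ∀ (𝔓 𝔓' : HeightOneSpectrum (𝓞 Ω)),
      (∀ y : Ω, 𝔓'.valuation Ω y = 𝔓.valuation Ω (σ y)) → ∀ n : ℕ,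
      (n : 𝓞 Ω) ∈ 𝔓'.asIdeal ↔ (n : 𝓞 Ω) ∈ 𝔓.asIdeal := by
    intro 𝔓 𝔓' hv n
    rw [← nat_val, ← nat_val, hv, hp]
  -- the automorphism of `M`
  obtain ⟨s, hs⟩ : ∃ s : M ≃ₐ[K] M, ∀ m : M, algebraMap M Ω (s m) = σ (algebraMap M Ω m) :=
    ⟨(σ.restrictScalars K).restrictNormal M, fun m =>
      AlgEquiv.restrictNormal_commutes (σ.restrictScalars K) M m⟩
  have hs' : ∀ m : M, σ.symm (algebraMap M Ω m) = algebraMap M Ω (s.symm m) := by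
    intro m
    rw [AlgEquiv.symm_apply_eq, ← hs, s.apply_symm_apply]
  have hpol : ∀ t : M[X], aeval θ t = σ x →
      aeval θ (t.map (s.symm : M →+* M)) = x := by
    intro t ht
    have h1 : σ.symm (aeval θ t) = aeval θ (t.map (s.symm : M →+* M)) := by
      rw [aeval_def, aeval_def, eval₂_map]
      have h2 : σ.symm (eval₂ (algebraMap M Ω) θ t) =
          eval₂ ((σ.symm : Ω →+* Ω).comp (algebraMap M Ω)) (σ.symm θ) t :=
        Polynomial.hom_eval₂ t (algebraMap M Ω) (σ.symm : Ω →+* Ω) θ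
      rw [h2]
      have h3 : σ.symm θ = θ := by
        rw [hθ]
        exact σ.symm.commutes θ₀
      rw [h3]
      congr 1
      ext m
      exact hs' m
    rw [← h1, ht, σ.symm_apply_apply]
  refine ⟨fun 𝔓 h1 h2 h3 => ?_, fun q hq 𝔓 h1 h2 => ?_, fun w hw φ t ht => ?_, fun τ t ht => ?_⟩
  · obtain ⟨𝔓', hv, -⟩ := key 𝔓
    have hv' : ∀ y : Ω, 𝔓'.valuation Ω y = 𝔓.valuation Ω (σ y) := hv
    have hbel : below K 𝔓' = below K 𝔓 := by
      apply HeightOneSpectrum.ext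
      ext a
      rw [mem_below, mem_below, ← HeightOneSpectrum.valuation_lt_one_iff_mem (K := Ω),
        ← HeightOneSpectrum.valuation_lt_one_iff_mem (K := Ω), hv']
      have e : ((algebraMap (𝓞 K) (𝓞 Ω) a : 𝓞 Ω) : Ω) =
          algebraMap L Ω (algebraMap K L (a : K)) :=
        IsScalarTower.algebraMap_apply K L Ω (a : K)
      have e' : 𝔓.valuation Ω (σ ((algebraMap (𝓞 K) (𝓞 Ω) a : 𝓞 Ω) : Ω)) =
          𝔓.valuation Ω ((algebraMap (𝓞 K) (𝓞 Ω) a : 𝓞 Ω) : Ω) := by rw [e, hf]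
      exact (congrArg (· < 1) e').to_iff
    refine (hev 𝔓 𝔓' hv' x).1 (h.ev 𝔓' (fun hc => h1 (by rw [← hbel]; exact hc))
      (fun q hq hc => h2 q hq ((hnat 𝔓 𝔓' hv' q).1 hc)) ?_)
    rw [hv', hη, hf, ← hη]
    exact h3
  · obtain ⟨𝔓', hv, -⟩ := key 𝔓
    have hv' : ∀ y : Ω, 𝔓'.valuation Ω y = 𝔓.valuation Ω (σ y) := hv
    have h0 : Ov (𝔮 q) 𝔓' := by
      rw [ov_iff] at h1 ⊢
      intro a ha
      rw [hv', IsScalarTower.algebraMap_apply K L Ω, hf, ← IsScalarTower.algebraMap_apply K L Ω]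
      exact h1 a ha
    have h3 := h.u0 q hq 𝔓' h0 (by rw [hv', hθ, hf, ← hθ]; exact h2)
    refine ⟨fun h4 => hsq 𝔓 𝔓' hv' x (h3.1 ((hev 𝔓 𝔓' hv' x).2 h4)), fun h4 => ?_⟩
    have h5 := hsq 𝔓 𝔓' hv' _ (h3.2 fun h6 => h4 ((hev 𝔓 𝔓' hv' x).1 h6))
    rw [map_mul, map_mul, hp, hθ, hf, ← hθ] at h5
    exact h5
  · have h1 := h.two w hw (φ.comp (s : M →ₐ[K] M)) _ (hpol t ht)
    have e1 : (t.map (s.symm : M →+* M)).map (φ.comp (s : M →ₐ[K] M)).toRingHom =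
        t.map φ.toRingHom := by
      rw [Polynomial.map_map]
      congr 1
      ext m
      show (φ (s (s.symm m))).toCompletion = (φ m).toCompletion
      rw [s.apply_symm_apply]
    rw [e1] at h1
    exact h1
  · have h1 := h.real (τ.comp (s : M →+* M)) _ (hpol t ht)
    have e1 : (t.map (s.symm : M →+* M)).map (τ.comp (s : M →+* M)) = t.map τ := by
      rw [Polynomial.map_map]
      congr 1
      ext m
      show τ (s (s.symm m)) = τ m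
      rw [s.apply_symm_apply]
    have e2 : (τ.comp (s : M →+* M)).comp (algebraMap K M) = τ.comp (algebraMap K M) := by
      ext k
      show τ (s (algebraMap K M k)) = τ (algebraMap K M k)
      rw [s.commutes]
    rw [e1, e2] at h1
    exact h1

end cond

end Pool.Agent.H25U
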