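import Pool.Agent.H25U.Top
import Pool.Agent.H25P.Sel

/-!
# The 2-Selmer group over all extensions `M` in a class (after `H25P/Sel.lean`)
-/

set_option autoImplicit false
set_option linter.all false

open Polynomial IsDedekindDomain NumberField
open scoped Classical IntermediateField

namespace Pool.Agent.H25U

open Pool.Agent.N874.PP (Ev Sq1 U0)
open Pool.Agent.N783.PQ (LocIm)
open Pool.Agent.N874.JM (LocF)
open Pool.Agent.N874.PM (Lies)
open Pool.Agent.N783.PF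
open Pool.Agent.H25P (fM fF_fM top_up irr_ext gen_g1 gen_g2 gen_top gen_equiv gen_map selZero_of
  fM_scale rd_scale nat_coprime_mem prime_unique)

/-- Irreducibility modulo a prime of the polynomial from the twist. -/
theorem rd_unscale {K : Type} [Field K] [NumberField K] {𝔭 : Ideal (𝓞 K)} (hp : 𝔭.IsMaximal)
    {f : (𝓞 K)[X]} (hm : f.Monic) {D : ℕ} (hD : (D : 𝓞 K) ∉ 𝔭)
    (h : Irreducible (rd 𝔭 (f.scaleRoots (D : 𝓞 K)))) : Irreducible (rd 𝔭 f) := by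
  letI := Ideal.Quotient.field 𝔭
  have e : rd 𝔭 (f.scaleRoots (D : 𝓞 K)) = (rd 𝔭 f).scaleRoots (Ideal.Quotient.mk 𝔭 (D : 𝓞 K)) := by
    unfold rd
    rw [map_scaleRoots]
    rw [hm.leadingCoeff, map_one]
    exact one_ne_zero
  rw [e] at h
  have hD' : Ideal.Quotient.mk 𝔭 (D : 𝓞 K) ≠ 0 := by rwa [Ne, Ideal.Quotient.eq_zero_iff_mem]
  have h2 := Pool.Agent.N170.PF.irr_scale (inv_ne_zero hD') h
  rwa [← scaleRoots_mul, mul_inv_cancel₀ hD', scaleRoots_one] at h2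

/-- The 2-Selmer group over all the extensions `M` of `K` in the class which belongs to `f` and
`S`. -/
theorem sel (K : Type) [Field K] [NumberField K] (g : ℕ) (hg : 1 ≤ g) : ∃ κ : ℕ,
    ∀ (B N W : ℕ) (f₁ : (𝓞 K)[X]) (S : Finset ℕ) (𝔮 : ℕ → Ideal (𝓞 K)) (r P : ℕ → (𝓞 K)[X])
      (f : (𝓞 K)[X]), κ ≤ W → GoodF g W f₁ →
      (∀ 𝔭 : Ideal (𝓞 K), 𝔭.IsPrime → (W : 𝓞 K) ∈ 𝔭 → Irreducible (rd 𝔭 f₁)) →
      GoodS g W S 𝔮 r P → Fam g B W f₁ S P f →
      2 ^ κ * B ≤ 4 ^ N → 1 ≤ B → ¬ LBad g N κ S 𝔮 P f →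
      ∃ J ⊆ S, SqF g f ∧ Irreducible (fF (f.scaleRoots ((Dp J : ℕ) : 𝓞 K))) ∧
        Min g (f.scaleRoots ((Dp J : ℕ) : 𝓞 K)) ∧
        (∀ 𝔭 : Ideal (𝓞 K), 𝔭.IsPrime → (W : 𝓞 K) ∈ 𝔭 →
          Irreducible (rd 𝔭 (f.scaleRoots ((Dp J : ℕ) : 𝓞 K)))) ∧
        ∀ (M : Type) [Field M] [NumberField M] [Algebra K M] [IsGalois K M] (n : ℕ),
          Module.finrank K M = 2 ^ n →
          (∀ w : HeightOneSpectrum (𝓞 K), (2 : 𝓞 K) ∈ w.asIdeal →
            Nonempty (M →ₐ[K] w.adicCompletion K)) →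
          (∀ q ∈ S, ∀ w : HeightOneSpectrum (𝓞 M), (q : 𝓞 M) ∈ w.asIdeal → Spl K w) →
          (∀ ρ : K →+* ℝ, (∃ τ : M →+* ℝ, τ.comp (algebraMap K M) = ρ) ∨
            ∀ (L : Type) [Field L] [NumberField L] [Algebra K L] (θ : L), IsGen g f θ →
            ∀ h : K[X], aeval θ h ≠ 0 → IsSquare (Algebra.norm K (aeval θ h)) →
              LocIm ℝ ((fF f).map ρ) (h.map ρ)) →
          (∀ w : HeightOneSpectrum (𝓞 M), Unr K w ∨
            Irreducible (rd (below K w).asIdeal (f.scaleRoots ((Dp J : ℕ) : 𝓞 K)))) →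
          Irreducible (fF (fM M (f.scaleRoots ((Dp J : ℕ) : 𝓞 K)))) ∧
          SelZero (fM M (f.scaleRoots ((Dp J : ℕ) : 𝓞 K))) := by
  obtain ⟨κ₁, hκ₁⟩ := core g K hg
  obtain ⟨κ₂, hκ₂⟩ := sqf g K hg
  refine ⟨max κ₁ κ₂, fun B N W f₁ S 𝔮 r P f hW hf₁ hirr₁ hS hF hBN hB hnb => ?_⟩
  have hBN1 : 2 ^ κ₁ * B ≤ 4 ^ N :=
    (Nat.mul_le_mul_right _ (Nat.pow_le_pow_right (by norm_num) (le_max_left _ _))).trans hBN
  have hBN2 : 2 ^ κ₂ * B ≤ 4 ^ N :=
    (Nat.mul_le_mul_right _ (Nat.pow_le_pow_right (by norm_num) (le_max_right _ _))).trans hBN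
  have hnb1 : ¬ LBad g N κ₁ S 𝔮 P f := fun h =>
    hnb (Pool.Agent.N170.PF.LBad.mono (le_max_left _ _) h)
  have hnb2 : ¬ LBad g N κ₂ S 𝔮 P f := fun h =>
    hnb (Pool.Agent.N170.PF.LBad.mono (le_max_right _ _) h)
  have hm := hF.ht.mon
  have hd := hF.ht.deg
  have hirr : Irreducible (fF f) := Pool.Agent.N667.PF.irr K g W f₁ f hf₁ hF.one hm hd
  have hsq : SqF g f := hκ₂ B N W f₁ S 𝔮 r P f ((le_max_right _ _).trans hW) hf₁ hS hF hirr hBN2
    hB hnb2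
  obtain ⟨L, _, _, _, θ, hc⟩ := Pool.Agent.N667.PF.gen K g f hm hd hirr
  obtain ⟨J, hJ, hcore⟩ := hκ₁ L f f₁ θ B N W S 𝔮 r P ((le_max_left _ _).trans hW) hc hsq hf₁ hS
    hF hBN1 hB hnb1
  -- the polynomial is irreducible modulo the primes over `W`
  have hirrW : ∀ 𝔭 : Ideal (𝓞 K), 𝔭.IsPrime → (W : 𝓞 K) ∈ 𝔭 → Irreducible (rd 𝔭 f) := by
    intro 𝔭 hp hW
    rw [Pool.Agent.N78.PF.rd_eq (Pool.Agent.N78.PF.sp_le hW) hF.one]
    exact hirr₁ 𝔭 hp hW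
  have hWpos := hf₁.pos
  have hcop : ∀ q ∈ S, ¬ q ∣ W := fun q hq hqW =>
    absurd (Nat.le_of_dvd hWpos hqW) (not_le.2 (hS q hq).2.1)
  have hcow : ∀ q ∈ S, Nat.Coprime q W := fun q hq =>
    (Nat.Prime.coprime_iff_not_dvd (hS q hq).1).2 (hcop q hq)
  have hD0 : Dp J ≠ 0 := by
    rw [Dp, Finset.prod_ne_zero_iff]
    exact fun q hq => (hS q (hJ hq)).1.ne_zero
  have hD0K : ((Dp J : ℕ) : K) ≠ 0 := Nat.cast_ne_zero.2 hD0
  have hmin := Pool.Agent.N547.PF.min g W K S J 𝔮 r P f hg hS hsq hm hd hF.con hJ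
  have hirrD : Irreducible (fF (f.scaleRoots ((Dp J : ℕ) : 𝓞 K))) := by
    rw [Pool.Agent.N78.PF.fF_scale hm]
    exact Pool.Agent.N170.PF.irr_scale hD0K hirr
  refine ⟨J, hJ, hsq, hirrD, hmin, ?_, ?_⟩
  · intro 𝔭 hp hW𝔭
    have hne : 𝔭 ≠ ⊥ := by
      rintro rfl
      rw [Ideal.mem_bot] at hW𝔭
      exact hWpos.ne' (by exact_mod_cast hW𝔭)
    refine rd_scale (hp.isMaximal hne) hm ?_ (hirrW 𝔭 hp hW𝔭)
    intro hD
    rw [Dp, Nat.cast_prod] at hD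
    obtain ⟨q, hq, hqm⟩ := (Ideal.IsPrime.prod_mem_iff).1 hD
    exact nat_coprime_mem (v := ⟨𝔭, hp, hne⟩) (hcow q (hJ hq)) hqm hW𝔭
  intro M _ _ _ _ n hM hemb hsp hreal hram
  -- the excluded primes
  let Z : Ideal (𝓞 K) → Prop := fun 𝔭 => (2 : 𝓞 K) ∈ 𝔭 ∨
    ∃ w : HeightOneSpectrum (𝓞 M), (below K w).asIdeal = 𝔭 ∧ ¬ Unr K w
  have hE : Ext K M S Z := by
    refine ⟨fun w hw => ?_, hsp⟩
    by_contra hc
    exact hw (Or.inr ⟨w, rfl, hc⟩)
  have H : Setup g W f S J 𝔮 r P Z := by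
    refine ⟨hg, hsq, hS, hF.con, hJ, fun 𝔭 _ h2 => Or.inl h2, fun 𝔭 hp hZ => ?_,
      fun q hq 𝔭 hp hq𝔭 hZ => ?_⟩
    · rcases hZ with h2 | ⟨w, hw, hun⟩
      · refine hirrW 𝔭 hp ?_
        obtain ⟨k, hk⟩ := hf₁.two
        rw [hk, Nat.cast_mul, Nat.cast_ofNat]
        exact Ideal.mul_mem_right _ _ h2
      · have h3 := (hram w).resolve_left hun
        have hDw : ((Dp J : ℕ) : 𝓞 K) ∉ (below K w).asIdeal := by
          intro hD
          rw [Dp, Nat.cast_prod] at hD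
          haveI := (below K w).isPrime
          obtain ⟨q, hq, hqm⟩ := (Ideal.IsPrime.prod_mem_iff).1 hD
          apply hun
          refine (hsp q (hJ hq) w ?_).unr
          rw [mem_below, map_natCast] at hqm
          exact hqm
        rw [← hw]
        exact rd_unscale (below K w).isMaximal hm hDw h3
    · have hne : 𝔭 ≠ ⊥ := by
        rintro rfl
        rw [Ideal.mem_bot] at hq𝔭
        exact (hS q hq).1.ne_zero (by exact_mod_cast hq𝔭)
      rcases hZ with h2 | ⟨w, hw, hun⟩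
      · have h4 : q = 2 := prime_unique (v := ⟨𝔭, hp, hne⟩) (hS q hq).1 Nat.prime_two hq𝔭
          (by exact_mod_cast h2)
        have h5 : q % 8 = 1 := (hS q hq).2.2.2.1
        rw [h4] at h5
        norm_num at h5
      · apply hun
        refine (hsp q hq w ?_).unr
        rw [← hw, mem_below, map_natCast] at hq𝔭
        exact hq𝔭
  obtain ⟨γ, hγ⟩ := Field.exists_primitive_element K M
  -- the fields
  have hirrM : Irreducible (fF (fM M f)) := by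
    rw [fF_fM]
    refine irr_ext hM hirr (hm.map _) ?_
    rw [hm.natDegree_map, hd]
    exact odd_two_mul_add_one g
  have hmM : (fM M f).Monic := hm.map _
  have hdM : (fM M f).natDegree = 2 * g + 1 := by rw [fM, hm.natDegree_map, hd]
  obtain ⟨Ω, _, _, _, t, hcM⟩ := Pool.Agent.N667.PF.gen M g (fM M f) hmM hdM hirrM
  letI : Algebra K Ω := ((algebraMap M Ω).comp (algebraMap K M)).toAlgebra
  haveI : IsScalarTower K M Ω := IsScalarTower.of_algebraMap_eq fun x => rfl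
  have ht : aeval t (fF f) = 0 := by
    have h1 := hcM.root
    rw [fF_fM, aeval_map_algebraMap] at h1
    exact h1
  obtain ⟨φ, hφ⟩ := gen_map hc hirr ht
  letI : Algebra L Ω := φ.toRingHom.toAlgebra
  haveI : IsScalarTower K L Ω := IsScalarTower.of_algebraMap_eq fun x => (φ.commutes x).symm
  have hθt : algebraMap L Ω θ = t := hφ
  have hcM' : IsGen g (fM M f) (algebraMap L Ω θ) := by rw [hθt]; exact hcM
  have htopM : M⟮algebraMap L Ω θ⟯ = ⊤ := gen_top hcM'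
  have htop : L⟮algebraMap M Ω γ⟯ = ⊤ := top_up (K := K) hγ htopM
  have hirrDM : Irreducible (fF (fM M (f.scaleRoots ((Dp J : ℕ) : 𝓞 K)))) := by
    have hmD : (f.scaleRoots ((Dp J : ℕ) : 𝓞 K)).Monic := (monic_scaleRoots_iff _).2 hm
    rw [fF_fM]
    refine irr_ext hM hirrD (hmD.map _) ?_
    rw [hmD.natDegree_map, natDegree_scaleRoots, hd]
    exact odd_two_mul_add_one g
  refine ⟨hirrDM, ?_⟩
  rw [fM_scale M hm] at hirrDM ⊢
  refine selZero_of hcM' hD0 hirrDM fun h hne hnorm hloc hlocR => ?_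
  have g1 := gen_g1 hcM'
  have g2 : ∀ h : M[X], aeval (algebraMap L Ω θ) h = 0 → (fF f).map (algebraMap K M) ∣ h := by
    intro h h0
    rw [← fF_fM]
    exact gen_g2 hcM' hirrM h h0
  have hcnd := top (Ω := Ω) H hE htop hc hcM' g2 hloc hlocR hne
  have h2K : (2 : K) ≠ 0 := two_ne_zero
  refine Pool.Agent.N301.JM.tow' n K L M Ω h2K hM (by rw [hc.rank]; exact odd_two_mul_add_one g)
    (by rw [hcM'.rank, hc.rank])
    (fun x => Cnd f Z J 𝔮 M (algebraMap L Ω θ) (algebraMap L Ω (aeval θ (derivative (fF f)))) x)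
    (fun x hx => cnd_sq g1 g2 hx)
    (fun x y hx hy a b => cnd_mul g1 g2
      (fun q hq => ⟨H.prm (hJ hq), H.q2 (hJ hq), H.qmem (hJ hq)⟩)
      (fun q hq 𝔓 h1 h2 => (odd_top H hE htop hc (hJ hq) 𝔓 h1 h2).2) hx hy a b)
    (fun σ x a => cnd_sig rfl rfl σ a)
    (fun x hx a hN => base H hE htop hc hcore hemb (fun ρ => by
      rcases hreal ρ with h1 | h1
      · exact Or.inl h1
      · exact Or.inr (h1 L θ hc)) hx a hN)
    _ hne hcnd hnorm

end Pool.Agent.H25U
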