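import Pool.Agent.H25U.Base

/-!
# The top of the descent (after `H25P/Top.lean`)
-/

set_option autoImplicit false
set_option linter.all false

open Polynomial IsDedekindDomain NumberField
open scoped Classical IntermediateField

namespace Pool.Agent.H25U

open Pool.Agent.N874.PP (Ev Sq1 U0)
open Pool.Agent.N783.PQ (LocIm)
open Pool.Agent.N874.JM (LocF)
open Pool.Agent.N874.PM (Lies)
open Pool.Agent.N783.PF
open Pool.Agent.H25P (nat_val nat_val_one ev_sq ev_mul locIm_congr locIm_sq locIm_mul locIm_map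
  ov_iff ov_nat ev_down sq_down prime_unique p_lie nat_down ov_down fM fF_fM irr_up mod8 der_eq
  sq_up)

section top

variable {K L M Ω : Type} [Field K] [NumberField K] [Field L] [NumberField L] [Algebra K L]
  [Field M] [NumberField M] [Algebra K M] [Field Ω] [NumberField Ω] [Algebra K Ω] [Algebra L Ω]
  [Algebra M Ω] [IsScalarTower K M Ω] [IsScalarTower K L Ω]
  {g W : ℕ} {f : (𝓞 K)[X]} {S J : Finset ℕ} {𝔮 : ℕ → Ideal (𝓞 K)} {r P : ℕ → (𝓞 K)[X]}
  {Z : Ideal (𝓞 K) → Prop} {θ : L} {γ : M}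

/-- The conditions over `Ω`. -/
theorem top [IsGalois K M] (H : Setup g W f S J 𝔮 r P Z) (E : Ext K M S Z)
    (htop : L⟮algebraMap M Ω γ⟯ = ⊤) (hG : IsGen g f θ)
    (hGM : IsGen g (fM M f) (algebraMap L Ω θ))
    (g2 : ∀ h : M[X], aeval (algebraMap L Ω θ) h = 0 → (fF f).map (algebraMap K M) ∣ h)
    {h : M[X]}
    (hloc : ∀ w : HeightOneSpectrum (𝓞 M),
      LocF (w.adicCompletion M) (fF ((fM M f).scaleRoots ((Dp J : ℕ) : 𝓞 M))) h)
    (hreal : ∀ σ : M →+* ℝ, LocIm ℝ ((fF ((fM M f).scaleRoots ((Dp J : ℕ) : 𝓞 M))).map σ)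
      (h.map σ))
    (hne : aeval (((Dp J : ℕ) : Ω) * algebraMap L Ω θ) h ≠ 0) :
    Cnd f Z J 𝔮 M (algebraMap L Ω θ) (algebraMap L Ω (aeval θ (derivative (fF f))))
      (aeval (((Dp J : ℕ) : Ω) * algebraMap L Ω θ) h) := by
  have hD0 : Dp J ≠ 0 := by
    rw [Dp, Finset.prod_ne_zero_iff]
    exact fun q hq => (H.prm (H.sub hq)).ne_zero
  have hD8 : Dp J % 8 = 1 := mod8 H.sub fun q hq => (H.good q hq).2.2.2.1
  have hcomp : ∀ t : M[X], aeval (algebraMap L Ω θ) t =
      aeval (((Dp J : ℕ) : Ω) * algebraMap L Ω θ) h →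
      (fF f).map (algebraMap K M) ∣ h.comp (C ((Dp J : ℕ) : M) * X) - t := by
    intro t ht
    apply g2
    rw [map_sub, aeval_comp, map_mul, aeval_C, aeval_X, map_natCast, ht, sub_self]
  refine ⟨fun 𝔓 h1 h2 h3 => ?_, fun q hq 𝔓 h1 h3 => ?_, fun w hw φ t ht => ?_, fun τ t ht => ?_⟩
  · obtain ⟨w, w1, w2, w3⟩ := p_lie M Ω 𝔓
    have hL : Lies (M := M) (Ω := Ω) w 𝔓 := ⟨fun x => (w3 x).1, fun x => (w3 x).2⟩
    have hnat : ∀ n : ℕ, (n : 𝓞 Ω) ∉ 𝔓.asIdeal → (n : 𝓞 M) ∉ w.asIdeal := by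
      intro n hn hc
      apply hn
      have := (w2 _).1 hc
      rwa [map_natCast] at this
    have hDw : ((Dp J : ℕ) : 𝓞 M) ∉ w.asIdeal := by
      intro hd
      rw [Dp, Nat.cast_prod] at hd
      haveI := w.isPrime
      obtain ⟨q, hq, hqw⟩ := (Ideal.IsPrime.prod_mem_iff).1 hd
      exact hnat q (h2 q hq) hqw
    have h2w : (2 : 𝓞 M) ∉ w.asIdeal := by
      intro hc
      apply H.not2 h1
      have := (w2 _).1 hc
      rwa [map_ofNat] at this
    refine Pool.Agent.N78.PF.ev_unit hGM hL h2w hDw h ?_ (hloc w) hne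
    rw [der_eq]
    exact h3
  · -- the primes over `𝔮 q`
    have hqS := H.sub hq
    have hqm := ov_nat h1 (H.qmem hqS)
    have hWn := H.notZ hqS hqm
    obtain ⟨w, w1, w2, w3⟩ := p_lie M Ω 𝔓
    have hL : Lies (M := M) (Ω := Ω) w 𝔓 := ⟨fun x => (w3 x).1, fun x => (w3 x).2⟩
    have hqw : (q : 𝓞 M) ∈ w.asIdeal := by
      rw [w2, map_natCast]
      exact hqm
    have hWw : ¬ Z (below K w).asIdeal := H.notZ hqS hqw
    -- the places of `K` and of `L`
    obtain ⟨v, hv⟩ : ∃ v : HeightOneSpectrum (𝓞 K), ∀ x : K,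
      w.valuation M (algebraMap K M x) = v.valuation K x := ⟨_, val_below (E.ur w hWw)⟩
    obtain ⟨𝔓₀, hv₀⟩ : ∃ 𝔓₀ : HeightOneSpectrum (𝓞 L), ∀ x : L,
      𝔓.valuation Ω (algebraMap L Ω x) = 𝔓₀.valuation L x := ⟨_, down (L := L) E htop 𝔓 hWn⟩
    have hv1 : 𝔓₀.valuation L θ = 1 := by rw [← hv₀]; exact h3
    have ho₀ := (ov_down hv₀ (𝔮 q)).1 h1
    have hdw : ∀ s : M, s ≠ 0 → ∃ s₀ : K, w.valuation M (s - algebraMap K M s₀) <
        w.valuation M s := fun s hs => dense_of_spl (E.sp q hqS w hqw) s hs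
    -- `v = 𝔮 q`
    have hqv : 𝔮 q = v.asIdeal := by
      have hmax : (𝔮 q).IsMaximal := (H.qpr hqS).isMaximal (H.qne hqS)
      refine hmax.eq_of_le v.isPrime.ne_top fun a ha => ?_
      have h5 := h1 a ha
      rw [← HeightOneSpectrum.valuation_lt_one_iff_mem (K := K), ← hv]
      have e6 : algebraMap (𝓞 M) (𝓞 Ω) (algebraMap (𝓞 K) (𝓞 M) a) = algebraMap (𝓞 K) (𝓞 Ω) a := by
        apply NumberField.RingOfIntegers.ext
        exact (IsScalarTower.algebraMap_apply K M Ω (a : K)).symm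
      have h6 : algebraMap (𝓞 K) (𝓞 M) a ∈ w.asIdeal := by
        rw [w2, e6]
        exact h5
      exact (HeightOneSpectrum.valuation_lt_one_iff_mem (K := M) w _).2 h6
    obtain ⟨a1, a2, a3, a4, a5, a6, a7, a8, a9, a10, a11, a12, a13, a14, a15⟩ := H.good q hqS
    haveI : Finite (𝓞 M ⧸ w.asIdeal) := Ideal.finiteQuotientOfFreeOfNeBot _ w.ne_bot
    haveI : Finite (𝓞 Ω ⧸ 𝔓.asIdeal) := Ideal.finiteQuotientOfFreeOfNeBot _ 𝔓.ne_bot
    obtain ⟨D', hD'⟩ : ∃ D' : ℕ, D' = ∏ p ∈ J.erase q, p := ⟨_, rfl⟩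
    have hDD : Dp J = q * D' := by
      rw [hD']
      exact (Finset.mul_prod_erase J (fun P => P) hq).symm
    have hD'm : ∀ {F : Type} [Field F] [NumberField F] {u : HeightOneSpectrum (𝓞 F)},
        (q : 𝓞 F) ∈ u.asIdeal → (D' : 𝓞 F) ∉ u.asIdeal := by
      intro F _ _ u hqu hd
      rw [hD', Nat.cast_prod] at hd
      haveI := u.isPrime
      obtain ⟨p, hp, hpm⟩ := (Ideal.IsPrime.prod_mem_iff).1 hd
      have hp' := Finset.mem_erase.1 hp
      exact hp'.1 (prime_unique (H.prm (H.sub hp'.2)) a1 hpm hqu)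
    have v2 : w.valuation M 2 = 1 := by
      have := Pool.Agent.N78.PF.val_one (w := w) (a := 2) (H.not2 hWw)
      rwa [Pool.Agent.N78.PF.two_cast] at this
    have vD' : w.valuation M (D' : M) = 1 := nat_val_one.2 (hD'm hqw)
    obtain ⟨vq, -⟩ := odd_top H E htop hG hqS 𝔓 h1 h3
    obtain ⟨c1, -, -, -⟩ := csq g W K L f θ S 𝔮 r P H.hg hG H.sq H.good q hqS (H.cq hqS) 𝔓₀ ho₀ hv1
    have s1 : Sq1 𝔓 (-1 : Ω) := by
      have h4 := c1 (-1) (by
        intro hm
        apply a6.ne_top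
        rw [Ideal.eq_top_iff_one]
        have := Ideal.neg_mem_iff _ |>.2 hm
        simpa using this)
      have h5 := sq_up hv₀ h4
      have e : algebraMap L Ω (algebraMap K L ((-1 : 𝓞 K) : K)) = -1 := by simp
      rwa [e] at h5
    have s2 : Sq1 𝔓 (algebraMap M Ω (D' : M)) := by
      have h4 := c1 (D' : 𝓞 K) (by rw [hqv]; exact hD'm (by rw [← hqv]; exact a7))
      have h5 := sq_up hv₀ h4
      have e : algebraMap L Ω (algebraMap K L ((D' : 𝓞 K) : K)) = algebraMap M Ω (D' : M) := by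
        simp
      rwa [e] at h5
    have hl := hloc w
    rw [Pool.Agent.N78.PF.fF_scale hGM.mon, hDD, Nat.cast_mul] at hl
    have e8 : ((Dp J : ℕ) : Ω) = algebraMap M Ω ((q : M) * (D' : M)) := by
      rw [hDD]
      simp
    have e9 : (q : Ω) = algebraMap M Ω (q : M) := by simp
    rw [e8] at hne ⊢
    rw [e9]
    rw [e9] at vq
    refine Pool.Agent.N78.PF.LOC2 M Ω (𝓞 M) (𝓞 Ω) w 𝔓 hL v2 g (fF (fM M f)) h (fM M (r q))
      (q : M) (D' : M) (algebraMap L Ω θ) H.hg (hGM.mon.map _) ?_ (a8.map _) ?_ ?_ ?_ hGM.root h3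
      vq vD' s1 s2 hl hne
    · rw [hGM.mon.natDegree_map, hGM.deg]
    · rw [a8.natDegree_map, a9]
    · refine irr_up hv hdw ?_
      rw [← hqv]
      exact a10
    · intro j
      have h4 : f.coeff j - (X * r q).coeff j ∈ v.asIdeal := by
        rw [← hqv]
        exact H.cq hqS j
      rw [← HeightOneSpectrum.valuation_lt_one_iff_mem (K := K), ← hv] at h4
      have e : (fF (fM M f)).coeff j - algebraMap (𝓞 M) M ((X * fM M (r q)).coeff j) =
          algebraMap K M (algebraMap (𝓞 K) K (f.coeff j - (X * r q).coeff j)) := by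
        have e1 : X * fM M (r q) = (X * r q).map (algebraMap (𝓞 K) (𝓞 M)) := by
          rw [Polynomial.map_mul, map_X]
        rw [e1, coeff_map, coeff_map, coeff_map, map_sub, map_sub]
        rfl
      rw [e]
      exact h4
  · -- the primes over two
    haveI : Fact (Nat.Prime 2) := ⟨Nat.prime_two⟩
    obtain ⟨δ, hδ⟩ := Pool.Agent.N891.PQ.sq_two (Dp J) hD8
    obtain ⟨ι, hι, -, -⟩ := Pool.Agent.N498.PQ.cpl K 2 w (by
      change ((2 : ℕ) : 𝓞 K) ∈ w.asIdeal
      exact_mod_cast hw)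
    haveI : CharZero (w.adicCompletion K) :=
      charZero_of_injective_algebraMap (algebraMap K (w.adicCompletion K)).injective
    obtain ⟨j, hj⟩ := Pool.Agent.H25P.Emb.emb φ.toRingHom
    have ej : j.comp (algebraMap M ((Pool.Agent.H25P.Emb.pl φ.toRingHom).adicCompletion M)) = φ.toRingHom :=
      RingHom.ext hj
    have h0 : LocIm ((Pool.Agent.H25P.Emb.pl φ.toRingHom).adicCompletion M)
        ((fF ((fM M f).scaleRoots ((Dp J : ℕ) : 𝓞 M))).map (algebraMap M _))
        (h.map (algebraMap M _)) := hloc _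
    have h1 := locIm_map j h0
    have ea : ((fF ((fM M f).scaleRoots ((Dp J : ℕ) : 𝓞 M))).map
        (algebraMap M ((Pool.Agent.H25P.Emb.pl φ.toRingHom).adicCompletion M))).map j =
        (fF ((fM M f).scaleRoots ((Dp J : ℕ) : 𝓞 M))).map φ.toRingHom := by
      rw [Polynomial.map_map (algebraMap M _) j, ej]
    have eb : (h.map (algebraMap M ((Pool.Agent.H25P.Emb.pl φ.toRingHom).adicCompletion M))).map j =
        h.map φ.toRingHom := by
      rw [Polynomial.map_map, ej]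
    rw [ea, eb] at h1
    letI : Algebra M (w.adicCompletion K) := φ.toRingHom.toAlgebra
    have h2 := Pool.Agent.N78.PF.map_locF (F := M) (E := w.adicCompletion K) hGM.mon hGM.deg hD0
      (ι δ) (by rw [← map_pow, hδ, map_natCast]) h h1
    have e1 : (fF (fM M f)).map φ.toRingHom =
        (fF f).map (algebraMap K (w.adicCompletion K)) := by
      rw [fF_fM, Polynomial.map_map]
      congr 1
      exact φ.comp_algebraMap
    have h3 : LocIm (w.adicCompletion K) ((fF f).map (algebraMap K (w.adicCompletion K)))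
        ((h.comp (C ((Dp J : ℕ) : M) * X)).map φ.toRingHom) := by
      rw [← e1]
      exact h2
    have h4 := Polynomial.map_dvd φ.toRingHom (hcomp t ht)
    rw [Polynomial.map_map, Polynomial.map_sub] at h4
    have e2 : φ.toRingHom.comp (algebraMap K M) = algebraMap K (w.adicCompletion K) :=
      φ.comp_algebraMap
    rw [e2] at h4
    exact locIm_congr h4 h3
  · -- the real places
    letI : Algebra M ℝ := τ.toAlgebra
    have h2 := Pool.Agent.N78.PF.map_locF (F := M) (E := ℝ) hGM.mon hGM.deg hD0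
      (Real.sqrt (Dp J)) (Real.sq_sqrt (Nat.cast_nonneg _)) h (hreal τ)
    have e1 : (fF (fM M f)).map τ = (fF f).map (τ.comp (algebraMap K M)) := by
      rw [fF_fM, Polynomial.map_map]
    have h3 : LocIm ℝ ((fF f).map (τ.comp (algebraMap K M)))
        ((h.comp (C ((Dp J : ℕ) : M) * X)).map τ) := by
      rw [← e1]
      exact h2
    have h4 := Polynomial.map_dvd τ (hcomp t ht)
    rw [Polynomial.map_map, Polynomial.map_sub] at h4
    exact locIm_congr h4 h3

end top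

end Pool.Agent.H25U
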