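import Pool.Agent.H25U.Ur

/-!
# Unramified and completely split primes, base change
-/

set_option autoImplicit false
set_option linter.all false

open IsDedekindDomain NumberField Polynomial
open scoped Classical IntermediateField Pointwise

namespace Pool.Agent.H25U

open Pool.Agent.H25P

/-- The compositum is a Galois extension. -/
theorem galois_up {K L M Ω : Type} [Field K] [Field L] [Algebra K L] [Field M] [Algebra K M]
    [Field Ω] [Algebra K Ω] [Algebra L Ω] [Algebra M Ω] [IsScalarTower K M Ω] [IsScalarTower K L Ω]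
    [FiniteDimensional K M] [IsGalois K M] {γ : M} (h : L⟮algebraMap M Ω γ⟯ = ⊤) :
    IsGalois L Ω := by
  set p : K[X] := minpoly K γ with hp
  have hγi : IsIntegral K γ := IsIntegral.of_finite K γ
  have hps : (p.map (algebraMap K M)).Splits := Normal.splits inferInstance γ
  have hsep : p.Separable := IsGalois.separable K γ
  have h1 : ((p.map (algebraMap K L)).map (algebraMap L Ω)).Splits := by
    rw [Polynomial.map_map, ← IsScalarTower.algebraMap_eq K L Ω, IsScalarTower.algebraMap_eq K M Ω,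
      ← Polynomial.map_map]
    exact hps.map _
  have hγ : algebraMap M Ω γ ∈ (p.map (algebraMap K L)).rootSet Ω := by
    rw [mem_rootSet']
    constructor
    · rw [Polynomial.map_map]
      exact (Polynomial.map_ne_zero_iff (RingHom.injective _)).2 (minpoly.ne_zero hγi)
    · rw [aeval_map_algebraMap, aeval_algebraMap_apply, minpoly.aeval, map_zero]
  have hint : IsIntegral L (algebraMap M Ω γ) := by
    have h2 : IsIntegral K (algebraMap M Ω γ) := hγi.algebraMap
    exact h2.tower_top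
  haveI : (p.map (algebraMap K L)).IsSplittingField L Ω := by
    refine ⟨h1, ?_⟩
    rw [eq_top_iff]
    intro x _
    have h2 : x ∈ L⟮algebraMap M Ω γ⟯ := by rw [h]; trivial
    have h3 : x ∈ Algebra.adjoin L {algebraMap M Ω γ} := by
      have h4 := IntermediateField.adjoin_simple_toSubalgebra_of_isAlgebraic hint.isAlgebraic
      rw [← h4]
      exact h2
    refine Algebra.adjoin_mono ?_ h3
    intro y hy
    rw [Set.mem_singleton_iff] at hy
    rw [hy]
    exact hγ
  exact IsGalois.of_separable_splitting_field (p := p.map (algebraMap K L)) hsep.map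

section tower

variable {K L M Ω : Type} [Field K] [NumberField K] [Field L] [NumberField L] [Algebra K L]
  [Field M] [NumberField M] [Algebra K M] [Field Ω] [NumberField Ω] [Algebra K Ω] [Algebra L Ω]
  [Algebra M Ω] [IsScalarTower K M Ω] [IsScalarTower K L Ω]

/-- The restriction of an automorphism. -/
theorem res_ex [Normal K M] (σ : Ω ≃ₐ[L] Ω) :
    ∃ s : M ≃ₐ[K] M, ∀ m : M, algebraMap M Ω (s m) = σ (algebraMap M Ω m) :=
  ⟨(σ.restrictScalars K).restrictNormal M, fun m =>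
    AlgEquiv.restrictNormal_commutes (σ.restrictScalars K) M m⟩

theorem eq_one_of_res {γ : M} (htop : L⟮algebraMap M Ω γ⟯ = ⊤) {σ : Ω ≃ₐ[L] Ω}
    (h : ∀ m : M, σ (algebraMap M Ω m) = algebraMap M Ω m) : σ = 1 := by
  ext x
  rw [AlgEquiv.one_apply]
  have hx : x ∈ L⟮algebraMap M Ω γ⟯ := by rw [htop]; trivial
  let E : IntermediateField L Ω := IntermediateField.fixedField (Subgroup.zpowers σ)
  have h4 : L⟮algebraMap M Ω γ⟯ ≤ E := by
    rw [IntermediateField.adjoin_simple_le_iff]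
    rintro ⟨τ, hτ⟩
    have h5 : ∀ n : ℤ, (σ ^ n) (algebraMap M Ω γ) = algebraMap M Ω γ := by
      have h6 : σ ∈ MulAction.stabilizer (Ω ≃ₐ[L] Ω) (algebraMap M Ω γ) := h γ
      intro n
      exact Subgroup.zpow_mem _ h6 n
    obtain ⟨n, rfl⟩ := Subgroup.mem_zpowers_iff.1 hτ
    exact h5 n
  exact h4 hx ⟨σ, Subgroup.mem_zpowers _⟩

theorem alg_smul {σ : Ω ≃ₐ[L] Ω} {s : M ≃ₐ[K] M}
    (hs : ∀ m : M, algebraMap M Ω (s m) = σ (algebraMap M Ω m)) (x : 𝓞 M) :
    algebraMap (𝓞 M) (𝓞 Ω) (s • x) = σ • algebraMap (𝓞 M) (𝓞 Ω) x := by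
  apply NumberField.RingOfIntegers.ext
  exact hs (x : M)

theorem Unr.up [Normal K M] {γ : M} (htop : L⟮algebraMap M Ω γ⟯ = ⊤)
    {𝔓 : HeightOneSpectrum (𝓞 Ω)} (h : Unr K (below M 𝔓)) : Unr L 𝔓 := by
  intro σ hσ
  obtain ⟨s, hs⟩ := res_ex (K := K) (M := M) σ
  have h1 : s = 1 := by
    refine h s fun x => ?_
    rw [mem_below, map_sub, alg_smul hs]
    exact hσ _
  refine eq_one_of_res htop fun m => ?_
  rw [← hs, h1, AlgEquiv.one_apply]

theorem Spl.up [Normal K M] {γ : M} (htop : L⟮algebraMap M Ω γ⟯ = ⊤)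
    {𝔓 : HeightOneSpectrum (𝓞 Ω)} (h : Spl K (below M 𝔓)) : Spl L 𝔓 := by
  intro σ hσ
  obtain ⟨s, hs⟩ := res_ex (K := K) (M := M) σ
  have h1 : s = 1 := by
    refine h s fun x => Unr.of_ideal (fun y => ?_) x
    rw [mem_below, mem_below, alg_smul hs, ← HeightOneSpectrum.valuation_lt_one_iff_mem (K := Ω),
      ← HeightOneSpectrum.valuation_lt_one_iff_mem (K := Ω)]
    have e := hσ (algebraMap (𝓞 Ω) Ω (algebraMap (𝓞 M) (𝓞 Ω) y))
    have e' : 𝔓.valuation Ω (algebraMap (𝓞 Ω) Ω (σ • algebraMap (𝓞 M) (𝓞 Ω) y)) =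
        𝔓.valuation Ω (algebraMap (𝓞 Ω) Ω (algebraMap (𝓞 M) (𝓞 Ω) y)) := e
    exact (congrArg (· < 1) e').to_iff
  refine eq_one_of_res htop fun m => ?_
  rw [← hs, h1, AlgEquiv.one_apply]

/-- A prime at which `M` has an embedding in the completion is completely split. -/
theorem spl_of_emb [IsGalois K M] {w : HeightOneSpectrum (𝓞 M)} {u : HeightOneSpectrum (𝓞 K)}
    (hu : ∀ a : 𝓞 K, a ∈ u.asIdeal → algebraMap (𝓞 K) (𝓞 M) a ∈ w.asIdeal)
    (φ : M →ₐ[K] u.adicCompletion K) : Spl K w := by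
  let v₀ : HeightOneSpectrum (𝓞 M) := Emb.pl φ.toRingHom
  have h1 : ∀ a : 𝓞 K, algebraMap (𝓞 K) (𝓞 M) a ∈ v₀.asIdeal ↔ a ∈ u.asIdeal := by
    intro a
    show algebraMap (𝓞 K) (𝓞 M) a ∈ Emb.pI φ.toRingHom ↔ _
    rw [Emb.mem_pI]
    have e : φ.toRingHom (algebraMap (𝓞 M) M (algebraMap (𝓞 K) (𝓞 M) a)) =
        algebraMap K (u.adicCompletion K) (a : K) := φ.commutes (a : K)
    rw [e, Emb.vx, HeightOneSpectrum.valuation_lt_one_iff_mem]
  have h2 : ∀ a : 𝓞 K, algebraMap (𝓞 K) (𝓞 M) a ∈ w.asIdeal ↔ a ∈ u.asIdeal := by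
    intro a
    refine ⟨fun h => ?_, hu a⟩
    have hmax : u.asIdeal.IsMaximal := u.isMaximal
    have h3 : u.asIdeal = w.asIdeal.comap (algebraMap (𝓞 K) (𝓞 M)) :=
      hmax.eq_of_le (Ideal.comap_ne_top _ w.isPrime.ne_top) fun b hb => hu b hb
    rw [h3]
    exact h
  haveI := w.isPrime
  haveI := v₀.isPrime
  have h3 : w.asIdeal.under (𝓞 K) = v₀.asIdeal.under (𝓞 K) := by
    ext a
    rw [Ideal.under, Ideal.under, Ideal.mem_comap, Ideal.mem_comap, h1, h2]
  obtain ⟨τ, hτ⟩ := Algebra.IsInvariant.exists_smul_of_under_eq (𝓞 K) (𝓞 M) (M ≃ₐ[K] M)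
    v₀.asIdeal w.asIdeal h3.symm
  have h4 : w = act τ v₀ := by
    apply HeightOneSpectrum.ext
    rw [hτ]
    ext x
    rw [Ideal.mem_pointwise_smul_iff_inv_smul_mem,
      ← HeightOneSpectrum.valuation_lt_one_iff_mem (K := M),
      ← HeightOneSpectrum.valuation_lt_one_iff_mem (K := M), act_spec]
    rfl
  intro σ hσ
  have h5 : τ⁻¹ * σ * τ = 1 := by
    refine Emb.eq_one φ _ fun x => ?_
    have e1 : (Emb.pl φ.toRingHom).valuation M ((τ⁻¹ * σ * τ) x) =
        w.valuation M (σ (τ x)) := by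
      rw [h4, act_spec]
      rfl
    have e2 : (Emb.pl φ.toRingHom).valuation M x = w.valuation M (τ x) := by
      rw [h4, act_spec]
      have e3 : τ⁻¹ (τ x) = x := τ.symm_apply_apply x
      rw [e3]
    rw [e1, e2, hσ]
  have h6 : σ = τ * 1 * τ⁻¹ := by
    rw [← h5]
    group
  rw [h6, mul_one, mul_inv_cancel]

end tower

end Pool.Agent.H25U
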