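import Pool.Agent.H25P.Top
import Pool.Agent.H25P.Stab

/-!
# Unramified and completely split primes in Galois extensions
-/

set_option autoImplicit false
set_option linter.all false

open IsDedekindDomain NumberField Polynomial
open scoped Classical IntermediateField Pointwise

namespace Pool.Agent.H25U

open Pool.Agent.H25P

section fix

variable {L Ω : Type} [Field L] [NumberField L] [Field Ω] [NumberField Ω] [Algebra L Ω]

/-- The inertia group of `𝔓` in `Gal(Ω / L)` is trivial. -/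
def Unr (L : Type) [Field L] [NumberField L] {Ω : Type} [Field Ω] [NumberField Ω] [Algebra L Ω]
    (𝔓 : HeightOneSpectrum (𝓞 Ω)) : Prop :=
  ∀ σ : Ω ≃ₐ[L] Ω, (∀ x : 𝓞 Ω, σ • x - x ∈ 𝔓.asIdeal) → σ = 1

/-- The decomposition group of `𝔓` in `Gal(Ω / L)` is trivial. -/
def Spl (L : Type) [Field L] [NumberField L] {Ω : Type} [Field Ω] [NumberField Ω] [Algebra L Ω]
    (𝔓 : HeightOneSpectrum (𝓞 Ω)) : Prop :=
  ∀ σ : Ω ≃ₐ[L] Ω, (∀ x : Ω, 𝔓.valuation Ω (σ x) = 𝔓.valuation Ω x) → σ = 1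

theorem Unr.of_ideal {𝔓 : HeightOneSpectrum (𝓞 Ω)} {σ : Ω ≃ₐ[L] Ω}
    (h : ∀ x : 𝓞 Ω, σ • x ∈ 𝔓.asIdeal ↔ x ∈ 𝔓.asIdeal) (x : Ω) :
    𝔓.valuation Ω (σ x) = 𝔓.valuation Ω x := by
  obtain ⟨v', h1, -⟩ := Pool.Agent.N415.PQ.sig Ω (𝓞 Ω) σ.toRingEquiv 𝔓
  have h1' : ∀ y : Ω, v'.valuation Ω y = 𝔓.valuation Ω (σ y) := h1
  have h2 : v' = 𝔓 := by
    apply HeightOneSpectrum.ext
    ext y
    rw [← HeightOneSpectrum.valuation_lt_one_iff_mem (K := Ω), h1']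
    have h3 : 𝔓.valuation Ω (σ (algebraMap (𝓞 Ω) Ω y)) < 1 ↔ σ • y ∈ 𝔓.asIdeal := by
      rw [← HeightOneSpectrum.valuation_lt_one_iff_mem (K := Ω)]
      rfl
    rw [h3, h]
  rw [← h1', h2]

/-- A completely split prime is unramified. -/
theorem Spl.unr {𝔓 : HeightOneSpectrum (𝓞 Ω)} (h : Spl L 𝔓) : Unr L 𝔓 := by
  intro σ hσ
  refine h σ fun x => Unr.of_ideal (fun y => ?_) x
  constructor
  · intro h1
    have h2 := Ideal.sub_mem _ h1 (hσ y)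
    rwa [sub_sub_cancel] at h2
  · intro h1
    have h2 := Ideal.add_mem _ (hσ y) h1
    rwa [sub_add_cancel] at h2

theorem perfect (𝔓 : HeightOneSpectrum (𝓞 L)) : haveI := 𝔓.isPrime
    PerfectField 𝔓.asIdeal.ResidueField := by
  haveI := 𝔓.isPrime
  haveI := 𝔓.isMaximal
  haveI : Finite (𝓞 L ⧸ 𝔓.asIdeal) := Ideal.finiteQuotientOfFreeOfNeBot _ 𝔓.ne_bot
  haveI : Finite 𝔓.asIdeal.ResidueField :=
    Finite.of_surjective _ (𝔓.asIdeal.bijective_algebraMap_quotient_residueField).surjective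
  infer_instance

/-- The prime below. -/
noncomputable def below (L : Type) [Field L] [NumberField L] {Ω : Type} [Field Ω] [NumberField Ω]
    [Algebra L Ω] (𝔓 : HeightOneSpectrum (𝓞 Ω)) : HeightOneSpectrum (𝓞 L) :=
  ⟨𝔓.asIdeal.under (𝓞 L), Ideal.comap_isPrime _ _,
    fun h0 => 𝔓.ne_bot (Ideal.eq_bot_of_comap_eq_bot h0)⟩

theorem mem_below (𝔓 : HeightOneSpectrum (𝓞 Ω)) (a : 𝓞 L) :
    a ∈ (below L 𝔓).asIdeal ↔ algebraMap (𝓞 L) (𝓞 Ω) a ∈ 𝔓.asIdeal := Iff.rfl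

/-- An unramified prime. -/
theorem val_below [IsGalois L Ω] {𝔓 : HeightOneSpectrum (𝓞 Ω)} (h : Unr L 𝔓) (x : L) :
    𝔓.valuation Ω (algebraMap L Ω x) = (below L 𝔓).valuation L x := by
  haveI := 𝔓.isPrime
  haveI := (below L 𝔓).isPrime
  haveI hlo : 𝔓.asIdeal.LiesOver (below L 𝔓).asIdeal := ⟨rfl⟩
  haveI := perfect (below L 𝔓)
  have h1 : Nat.card (𝔓.asIdeal.inertia (Ω ≃ₐ[L] Ω)) = 1 := by
    have h2 : (𝔓.asIdeal.inertia (Ω ≃ₐ[L] Ω)) = ⊥ := by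
      rw [eq_bot_iff]
      intro σ hσ
      rw [Subgroup.mem_bot]
      exact h σ hσ
    rw [h2]
    exact Subgroup.card_bot
  have h3 := Ideal.card_inertia_eq_ramificationIdxIn (G := Ω ≃ₐ[L] Ω) (below L 𝔓).asIdeal
    𝔓.asIdeal
  rw [h1, Ideal.ramificationIdxIn_eq_ramificationIdx (below L 𝔓).asIdeal 𝔓.asIdeal (Ω ≃ₐ[L] Ω),
    ← Ideal.ramificationIdx'_eq_ramificationIdx (below L 𝔓).asIdeal 𝔓.asIdeal
      (below L 𝔓).ne_bot] at h3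
  have h4 := HeightOneSpectrum.valuation_liesOver Ω (below L 𝔓) 𝔓 x
  rw [← h3, pow_one] at h4
  exact h4.symm

/-- A completely split prime has the residue field of the prime below. -/
theorem res_below [IsGalois L Ω] {𝔓 : HeightOneSpectrum (𝓞 Ω)} (h : Spl L 𝔓) (a : 𝓞 Ω) :
    ∃ b : 𝓞 L, a - algebraMap (𝓞 L) (𝓞 Ω) b ∈ 𝔓.asIdeal := by
  haveI := 𝔓.isPrime
  haveI := (below L 𝔓).isPrime
  haveI := 𝔓.isMaximal
  haveI := (below L 𝔓).isMaximal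
  haveI hlo : 𝔓.asIdeal.LiesOver (below L 𝔓).asIdeal := ⟨rfl⟩
  haveI := perfect (below L 𝔓)
  have h1 : Nat.card (MulAction.stabilizer (Ω ≃ₐ[L] Ω) 𝔓.asIdeal) = 1 := by
    have h2 : MulAction.stabilizer (Ω ≃ₐ[L] Ω) 𝔓.asIdeal = ⊥ := by
      rw [eq_bot_iff]
      intro σ hσ
      rw [Subgroup.mem_bot]
      have h3 : σ⁻¹ ∈ MulAction.stabilizer (Ω ≃ₐ[L] Ω) 𝔓.asIdeal := Subgroup.inv_mem _ hσ
      rw [MulAction.mem_stabilizer_iff] at h3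
      refine h σ fun x => Unr.of_ideal (fun y => ?_) x
      have h4 : y ∈ σ⁻¹ • 𝔓.asIdeal ↔ σ⁻¹⁻¹ • y ∈ 𝔓.asIdeal :=
        Ideal.mem_pointwise_smul_iff_inv_smul_mem
      rw [h3, inv_inv] at h4
      exact h4.symm
    rw [h2]
    exact Subgroup.card_bot
  have h3 := Ideal.card_stabilizer_eq (G := Ω ≃ₐ[L] Ω) (below L 𝔓).asIdeal 𝔓.asIdeal
  rw [h1] at h3
  have h5 : (below L 𝔓).asIdeal.inertiaDegIn (𝓞 Ω) = 1 := by
    exact Nat.eq_one_of_mul_eq_one_left h3.symm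
  rw [Ideal.inertiaDegIn_eq_inertiaDeg (below L 𝔓).asIdeal 𝔓.asIdeal (Ω ≃ₐ[L] Ω),
    Ideal.inertiaDeg_eq_of_isMaximal (below L 𝔓).asIdeal 𝔓.asIdeal] at h5
  letI : Field (𝓞 L ⧸ (below L 𝔓).asIdeal) := Ideal.Quotient.field _
  letI : Field (𝓞 Ω ⧸ 𝔓.asIdeal) := Ideal.Quotient.field _
  obtain ⟨c, hc⟩ := (finrank_eq_one_iff_of_nonzero' (1 : 𝓞 Ω ⧸ 𝔓.asIdeal) one_ne_zero).1 h5
    (Ideal.Quotient.mk _ a)
  obtain ⟨b, rfl⟩ := Ideal.Quotient.mk_surjective c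
  refine ⟨b, ?_⟩
  rw [← Ideal.Quotient.eq, ← hc, Algebra.smul_def, mul_one]
  rfl

/-- Density at a completely split prime. -/
theorem dense_of_spl [IsGalois L Ω] {𝔓 : HeightOneSpectrum (𝓞 Ω)} (h : Spl L 𝔓) (s : Ω)
    (hs : s ≠ 0) : ∃ s₀ : L, 𝔓.valuation Ω (s - algebraMap L Ω s₀) < 𝔓.valuation Ω s := by
  obtain ⟨t, ht⟩ := (below L 𝔓).valuation_surjective L (𝔓.valuation Ω s)
  have ht' : 𝔓.valuation Ω (algebraMap L Ω t) = 𝔓.valuation Ω s := by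
    rw [val_below h.unr, ht]
  have hs0 : 𝔓.valuation Ω s ≠ 0 := (Valuation.ne_zero_iff _).2 hs
  have ht0 : algebraMap L Ω t ≠ 0 := by
    rw [← Valuation.ne_zero_iff (𝔓.valuation Ω), ht']
    exact hs0
  have h1 : 𝔓.valuation Ω (s / algebraMap L Ω t) ≤ 1 := by
    rw [map_div₀, ht', div_self hs0]
  obtain ⟨a, ha⟩ := approx 𝔓 h1
  obtain ⟨b, hb⟩ := res_below h a
  refine ⟨t * (b : L), ?_⟩
  have e : s - algebraMap L Ω (t * (b : L)) = algebraMap L Ω t *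
      ((s / algebraMap L Ω t - (a : Ω)) +
        algebraMap (𝓞 Ω) Ω (a - algebraMap (𝓞 L) (𝓞 Ω) b)) := by
    have e1 : algebraMap (𝓞 Ω) Ω (algebraMap (𝓞 L) (𝓞 Ω) b) = algebraMap L Ω (b : L) := rfl
    rw [map_sub, e1, map_mul]
    have e2 : algebraMap (𝓞 Ω) Ω a = (a : Ω) := rfl
    rw [e2]
    field_simp
    ring
  rw [e, map_mul, ht']
  have h2 : 𝔓.valuation Ω ((s / algebraMap L Ω t - (a : Ω)) +
      algebraMap (𝓞 Ω) Ω (a - algebraMap (𝓞 L) (𝓞 Ω) b)) < 1 := by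
    refine lt_of_le_of_lt (Valuation.map_add _ _ _) (max_lt ha ?_)
    rw [HeightOneSpectrum.valuation_lt_one_iff_mem]
    exact hb
  calc 𝔓.valuation Ω s * _ < 𝔓.valuation Ω s * 1 := by
        exact mul_lt_mul_of_pos_left h2 (zero_lt_iff.2 hs0)
    _ = _ := mul_one _

end fix

end Pool.Agent.H25U
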